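import Pool.Agent.H70.UX.Phf
import Pool.Agent.H77.UY.Frm

/-!
# H70-UY-ASD: the assembly of `PBG` (MP_b39724_nt, UBX): definitions

`n = m + 1`, `U = Nk N m`, `V = Nk N (m + 1)`, `Nk N (m + 2) = ⊥`.
* `Chr p N m`: the characters `P → ZMod p` of `U`, trivial on `V`, `0` outside `U`. `cmp`: the left component of a function.
* `Tf`: the condition on the variable prime (`chi (y) - chi (x⁻¹ y x) + k ([y, g]) = 0` for `y ∈ U`).
* `lamX`: the label of a variable prime. `vdX`: the variable part of BLG. `phR`: a homomorphism with values in `R`. `lbR`: an element of `Pf R`. `rdX`: the fixed part of BLG. `wyX`: the words.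
-/

set_option autoImplicit false
set_option linter.dupNamespace false

open scoped NumberField
open IsDedekindDomain
open scoped Classical

noncomputable section

namespace H70.UX

open H38.ML H63.MA H38.BB H38.BG H57.PC H57.BRA H77.WD H77.WE H77.PC3 H35.CF H35.UB H48.UX H77.UY
  H42.BX H62.BL H86.BX

section chr

variable {P : Type} [Group P]

/-- characters of `Nk N m`, trivial on `Nk N (m + 1)`, `0` outside `Nk N m` -/
structure IsChr (p : ℕ) (N : Subgroup P) (m : ℕ) (χ : P → ZMod p) : Prop where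
  add : ∀ u ∈ Nk N m, ∀ v ∈ Nk N m, χ (u * v) = χ u + χ v
  bot : ∀ u ∈ Nk N (m + 1), χ u = 0
  out : ∀ u, u ∉ Nk N m → χ u = 0

/-- characters of `Nk N m`, trivial on `Nk N (m + 1)` -/
def Chr (p : ℕ) (N : Subgroup P) (m : ℕ) : Type := {χ : P → ZMod p // IsChr p N m χ}

instance (p : ℕ) [NeZero p] (N : Subgroup P) (m : ℕ) [Finite P] : Finite (Chr p N m) :=
  inferInstanceAs (Finite {χ : P → ZMod p // IsChr p N m χ})

instance (p : ℕ) [NeZero p] (N : Subgroup P) (m : ℕ) [Finite P] : Fintype (Chr p N m) :=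
  Fintype.ofFinite _

/-- the left component of a function for a character -/
def cmp [Fintype P] (p : ℕ) (N : Subgroup P) (m : ℕ) (G : P → ℂ) (χ : P → ZMod p) (x : P) : ℂ :=
  ((Finset.univ.filter fun u : P => u ∈ Nk N m).card : ℂ)⁻¹ *
    ∑ u ∈ Finset.univ.filter (fun u : P => u ∈ Nk N m), ep p (-χ u) * G (u * x)

/-- the condition at a variable prime, `k` the value of the crossed homomorphism -/
def Tf {p : ℕ} (N : Subgroup P) (m : ℕ) (k : P → ZMod p) (g : P) (χ : P → ZMod p) (x : P) : Prop :=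
  ∀ y ∈ Nk N m, χ y - χ (x⁻¹ * y * x) + k (y * g * y⁻¹ * g⁻¹) = 0

end chr

section lab

variable {P : Type} [Group P] {N : Subgroup P} [hN : N.Normal] {m p κ : ℕ}
  {hn : Nk N (m + 1 + 1) = ⊥}

/-- the label of a variable prime -/
def lamX (hp : p.Prime) (hgN : N = Subgroup.closure {x | x ∈ N ∧ x ^ p = 1})
    (hκ : ∀ x : P, x ^ p ^ κ = 1) (R : Subgroup (Hs p (LL N (m + 1) hn) (P ⧸ N))) (g : P)
    (hg : g ∈ N) (χ : Chr p N m) :
    Lbx (frK hp hgN hκ : Kx (frF hp hgN hκ : FG (p ^ (κ + 2)) (m + 1) (Pf R) R)) :=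
  lbxL (frK hp hgN hκ) (gP g hg) (fun w => upc p (κ + 1) (χ.1 w.1.1)) (gP_mem hg hg)
    (fun u hu v hv => by
      have h1 := χ.2.add _ (mem_frf.1 hu).1 _ (mem_frf.1 hv).1
      show upc p (κ + 1) (χ.1 (u.1.1 * v.1.1)) = _
      rw [h1, upc_add hp])
    (fun u hu => by
      have h1 := χ.2.bot _ (mem_frf.1 hu).1
      show upc p (κ + 1) (χ.1 u.1.1) = 0
      rw [h1, upc_zero hp])

/-- the variable part -/
def vdX [Fintype P] (hp : p.Prime) (hgN : N = Subgroup.closure {x | x ∈ N ∧ x ^ p = 1})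
    (hκ : ∀ x : P, x ^ p ^ κ = 1) (R : Subgroup (Hs p (LL N (m + 1) hn) (P ⧸ N)))
    (gk : Fin (m + 2) → P) (hgk : ∀ k, gk k ∈ N) (χ : Fin (m + 2) → Chr p N m)
    (f : Fin (m + 2) → R) (Gk : Fin (m + 2) → P → ℂ) :
    Vd m (Pf R) R (Lbx (frK hp hgN hκ : Kx (frF hp hgN hκ : FG (p ^ (κ + 2)) (m + 1) (Pf R) R))) where
  g k := gP (gk k) (hgk k)
  lam k := lamX hp hgN hκ R (gk k) (hgk k) (χ k)
  f := f
  G k w := if w.1.2 = f k then cmp p N m (Gk k) (χ k).1 w.1.1 else 0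

/-- an element of the fibre product -/
def lbR (R : Subgroup (Hs p (LL N (m + 1) hn) (P ⧸ N))) (x : P) (r : R) : Pf R :=
  if h : (x : P ⧸ N) = r.1.g then Pf.mk x r h else 1

end lab

variable {K : Type} [Field K] [NumberField K] {Ω : Type} [Field Ω] [Algebra K Ω]
  {p : ℕ} {ζ : K} {D : RD0 K p ζ} {A : GS D Ω} {P : Type} [Group P] {N : Subgroup P} [N.Normal]
  {m : ℕ} {hn : Nk N (m + 1 + 1) = ⊥}

/-- a homomorphism with values in `R` -/
def phR (R : Subgroup (Hs p (LL N (m + 1) hn) (P ⧸ N)))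
    (Φ : Gal(Ω/K) →* Hs p (LL N (m + 1) hn) (P ⧸ N)) : Gal(Ω/K) →* R :=
  if h : ∀ σ, Φ σ ∈ R then Φ.codRestrict R h else 1

theorem phR_of (R : Subgroup (Hs p (LL N (m + 1) hn) (P ⧸ N)))
    {Φ : Gal(Ω/K) →* Hs p (LL N (m + 1) hn) (P ⧸ N)} (h : Φ.range = R) (σ : Gal(Ω/K)) :
    (phR R Φ σ : Hs p (LL N (m + 1) hn) (P ⧸ N)) = Φ σ := by
  have h1 : ∀ σ, Φ σ ∈ R := fun σ => h ▸ ⟨σ, rfl⟩
  unfold phR
  rw [dif_pos h1]
  rfl

theorem phR_sur (R : Subgroup (Hs p (LL N (m + 1) hn) (P ⧸ N)))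
    {Φ : Gal(Ω/K) →* Hs p (LL N (m + 1) hn) (P ⧸ N)} (h : Φ.range = R) :
    Function.Surjective (phR R Φ) := by
  intro r
  obtain ⟨σ, hσ⟩ : r.1 ∈ Φ.range := h ▸ r.2
  exact ⟨σ, Subtype.ext (by rw [phR_of R h, hσ])⟩

/-- the fixed part -/
def rdX {L : LDs D Ω} (Fr : FR L) (R : Subgroup (Hs p (LL N (m + 1) hn) (P ⧸ N)))
    (X : Bs A P N (m + 1)) (Φ : Gal(Ω/K) →* Hs p (LL N (m + 1) hn) (P ⧸ N)) :
    H93.BX.Rd A (Fin A.g) (Pf R) R where
  T := X.s
  lab v := lbR R (X.g v) (phR R Φ (L.t v))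
  al i := lbR R (X.α i) (phR R Φ (A.a i))
  phi := phR R Φ
  G v w := if w.1.2 = phR R Φ (Fr.F v) then X.G v w.1.1 else 0
  H _ _ := 1

/-- the words -/
def wyX {L : LDs D Ω} (Fr : FR L) {Q : DP K Ω} (B : H77.S3.SD D Q A) (M : ℕ) (Zw : Finset (Pl K))
    (W : Pl K → FW A) (Yw : Fin A.g → FW A) : H93.BX.Wy D A (Fin A.g) :=
  ⟨L, Fr, M, Zw, W, B.b, Yw⟩

end H70.UX
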