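import Pool.Agent.H70.UY.Asd
import Pool.Agent.H77.S3.Ddu

/-!
# H70-UY-CHR: the left components of a function (MP_b39724_nt, UBX)

`cmp_eq`, `cmp_le`, `cmp_sup`, `cmp_inv`, `cmp_sum` (the function is the sum of its components if it is invariant under `Nk N (m + 1)`), `chr_card`.
-/

set_option autoImplicit false
set_option linter.dupNamespace false

open scoped Classical commutatorElement

noncomputable section

namespace H70.UX

open H63.MA H35.UB

variable {P : Type} [Group P] {N : Subgroup P} [N.Normal] {m p : ℕ}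

private theorem chr_orth {V : Type} [CommGroup V] [Finite V] {p : ℕ} (hp : p.Prime)
    (hV : ∀ x : V, x ^ p = 1) [Fintype (V →* Multiplicative (ZMod p))] (u : V) :
    ∑ χ : V →* Multiplicative (ZMod p), ep p (-(Multiplicative.toAdd (χ u))) =
      if u = 1 then (Nat.card V : ℂ) else 0 := by
  by_cases hu : u = 1
  · rw [if_pos hu, hu]
    have h1 : ∀ χ : V →* Multiplicative (ZMod p), ep p (-(Multiplicative.toAdd (χ 1))) = 1 := by
      intro χ
      rw [map_one, toAdd_one, neg_zero, ep_zero]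
    rw [Finset.sum_congr rfl fun χ _ => h1 χ, Finset.sum_const, Finset.card_univ, nsmul_eq_mul, mul_one,
      ← Nat.card_eq_fintype_card, H77.S3.card_hom hp.ne_zero hV]
  · obtain ⟨χ0, hχ0⟩ := H77.S3.sep_ch hp.ne_zero hV hu
    rw [if_neg hu]
    have h1 : ep p (-(Multiplicative.toAdd (χ0 u))) *
        ∑ χ : V →* Multiplicative (ZMod p), ep p (-(Multiplicative.toAdd (χ u))) =
        ∑ χ : V →* Multiplicative (ZMod p), ep p (-(Multiplicative.toAdd (χ u))) := by
      rw [Finset.mul_sum]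
      refine Fintype.sum_bijective (fun χ => χ0 * χ) (Group.mulLeft_bijective χ0) _ _ (fun χ => ?_)
      rw [MonoidHom.mul_apply, toAdd_mul, neg_add, ep_add hp]
    have h2 : ep p (-(Multiplicative.toAdd (χ0 u))) ≠ 1 := by
      rw [Ne, ep_eq_one hp, neg_eq_zero]
      intro h
      exact hχ0 h
    have h3 : (ep p (-(Multiplicative.toAdd (χ0 u))) - 1) *
        ∑ χ : V →* Multiplicative (ZMod p), ep p (-(Multiplicative.toAdd (χ u))) = 0 := by
      rw [sub_mul, one_mul, h1, sub_self]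
    exact (mul_eq_zero.1 h3).resolve_left (sub_ne_zero.2 h2)

private theorem nk_leN (N : Subgroup P) [N.Normal] (m : ℕ) : Nk N m ≤ N := nk_anti N (Nat.zero_le m)

theorem chr_one {χ : P → ZMod p} (hχ : IsChr p N m χ) : χ 1 = 0 := by
  have h := hχ.add 1 (one_mem _) 1 (one_mem _)
  rw [mul_one] at h
  linear_combination -h

theorem chr_inv {χ : P → ZMod p} (hχ : IsChr p N m χ) {u : P} (hu : u ∈ Nk N m) :
    χ u⁻¹ = -χ u := by
  have h := hχ.add u hu u⁻¹ (inv_mem hu)
  rw [mul_inv_cancel, chr_one hχ] at h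
  linear_combination -h

theorem cmp_eq [Fintype P] (hp : p.Prime) {χ : P → ZMod p} (hχ : IsChr p N m χ) (G : P → ℂ) {u : P}
    (hu : u ∈ Nk N m) (x : P) : cmp p N m G χ (u * x) = ep p (χ u) * cmp p N m G χ x := by
  unfold cmp
  rw [mul_left_comm]
  congr 1
  rw [Finset.mul_sum]
  refine Finset.sum_nbij' (fun v => v * u) (fun v => v * u⁻¹) ?_ ?_ ?_ ?_ ?_
  · intro v hv
    rw [Finset.mem_filter] at hv ⊢
    exact ⟨Finset.mem_univ _, mul_mem hv.2 hu⟩
  · intro v hv
    rw [Finset.mem_filter] at hv ⊢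
    exact ⟨Finset.mem_univ _, mul_mem hv.2 (inv_mem hu)⟩
  · intro v _
    exact mul_inv_cancel_right v u
  · intro v _
    exact inv_mul_cancel_right v u
  · intro v hv
    rw [Finset.mem_filter] at hv
    rw [hχ.add v hv.2 u hu, ← mul_assoc, ← mul_assoc, ← ep_add hp]
    congr 2
    ring

theorem cmp_le [Fintype P] {G : P → ℂ} (hG : ∀ x, ‖G x‖ ≤ 1) (χ : P → ZMod p) (x : P) :
    ‖cmp p N m G χ x‖ ≤ 1 := by
  unfold cmp
  have hc : (0 : ℝ) < ((Finset.univ.filter fun u : P => u ∈ Nk N m).card : ℝ) := by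
    rw [Nat.cast_pos, Finset.card_pos]
    exact ⟨1, Finset.mem_filter.2 ⟨Finset.mem_univ _, one_mem _⟩⟩
  rw [norm_mul, norm_inv, Complex.norm_natCast]
  have h1 : ‖∑ u ∈ Finset.univ.filter (fun u : P => u ∈ Nk N m), ep p (-χ u) * G (u * x)‖ ≤
      ((Finset.univ.filter fun u : P => u ∈ Nk N m).card : ℝ) := by
    refine (norm_sum_le _ _).trans ?_
    refine (Finset.sum_le_card_nsmul _ _ 1 fun u _ => ?_).trans (le_of_eq ?_)
    · rw [norm_mul, ep_norm, one_mul]
      exact hG _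
    · rw [nsmul_eq_mul, mul_one]
  calc _ ≤ ((Finset.univ.filter fun u : P => u ∈ Nk N m).card : ℝ)⁻¹ *
      ((Finset.univ.filter fun u : P => u ∈ Nk N m).card : ℝ) :=
        mul_le_mul_of_nonneg_left h1 (inv_nonneg.2 hc.le)
    _ = 1 := inv_mul_cancel₀ hc.ne'

theorem cmp_sup [Fintype P] {G : P → ℂ} {f : P ⧸ N} (hG : ∀ x, G x ≠ 0 → (x : P ⧸ N) = f)
    {χ : P → ZMod p} {x : P} (h : cmp p N m G χ x ≠ 0) : (x : P ⧸ N) = f := by
  unfold cmp at h
  obtain ⟨u, hu, h1⟩ := Finset.exists_ne_zero_of_sum_ne_zero (right_ne_zero_of_mul h)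
  have h2 := hG _ (right_ne_zero_of_mul h1)
  have h3 : u ∈ N := nk_leN N m (Finset.mem_filter.1 hu).2
  rw [← h2, QuotientGroup.mk_mul, (QuotientGroup.eq_one_iff u).2 h3, one_mul]

theorem cmp_inv [Fintype P] {G : P → ℂ} (hG : ∀ x, ∀ u ∈ Nk N (m + 1), G (x * u) = G x)
    (χ : P → ZMod p) (x : P) {u : P} (hu : u ∈ Nk N (m + 1)) :
    cmp p N m G χ (x * u) = cmp p N m G χ x := by
  unfold cmp
  congr 1
  refine Finset.sum_congr rfl fun v _ => ?_
  rw [← mul_assoc, hG _ u hu]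

/-- the components; the quotient of the layers has exponent `p` since `N` is generated by elements
of order `p` -/
theorem cmp_sum [Fintype P] [NeZero p] (hp : p.Prime)
    (hgN : N = Subgroup.closure {x | x ∈ N ∧ x ^ p = 1}) {G : P → ℂ}
    (hG : ∀ x, ∀ u ∈ Nk N (m + 1), G (x * u) = G x) (x : P) :
    ∑ χ : Chr p N m, cmp p N m G χ.1 x = G x := by
  -- the quotient of the layers
  let Vs : Subgroup (Nk N m) := (Nk N (m + 1)).subgroupOf (Nk N m)
  have hcom : ∀ a b : Nk N m ⧸ Vs, a * b = b * a := by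
    intro a b
    obtain ⟨a, rfl⟩ := QuotientGroup.mk_surjective a
    obtain ⟨b, rfl⟩ := QuotientGroup.mk_surjective b
    rw [← QuotientGroup.mk_mul, ← QuotientGroup.mk_mul, QuotientGroup.eq]
    show (a * b)⁻¹ * (b * a) ∈ (Nk N (m + 1)).subgroupOf (Nk N m)
    rw [Subgroup.mem_subgroupOf]
    have h1 : ⁅((b : P)⁻¹), ((a : P)⁻¹)⁆ ∈ ⁅Nk N m, N⁆ :=
      Subgroup.commutator_mem_commutator (inv_mem b.2) (inv_mem (nk_leN N m a.2))
    rw [commutatorElement_def, inv_inv, inv_inv] at h1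
    have h2 : (((a * b)⁻¹ * (b * a) : Nk N m) : P) = (b : P)⁻¹ * (a : P)⁻¹ * b * a := by
      simp only [Subgroup.coe_mul, Subgroup.coe_inv, mul_inv_rev, mul_assoc]
    rw [h2]
    exact h1
  let inst : CommGroup (Nk N m ⧸ Vs) := { (inferInstance : Group (Nk N m ⧸ Vs)) with mul_comm := hcom }
  have hexp : ∀ a : Nk N m ⧸ Vs, a ^ p = 1 := by
    intro a
    obtain ⟨a, rfl⟩ := QuotientGroup.mk_surjective a
    rw [← QuotientGroup.mk_pow, QuotientGroup.eq_one_iff]
    show a ^ p ∈ (Nk N (m + 1)).subgroupOf (Nk N m)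
    rw [Subgroup.mem_subgroupOf, Subgroup.coe_pow]
    exact H62.BL.nk_pp N hgN m a a.2
  have hfin : Finite (Nk N m ⧸ Vs →* Multiplicative (ZMod p)) :=
    Finite.of_injective (fun χ : Nk N m ⧸ Vs →* Multiplicative (ZMod p) => (χ : _ → _))
      DFunLike.coe_injective
  let _ : Fintype (Nk N m ⧸ Vs →* Multiplicative (ZMod p)) := Fintype.ofFinite _
  -- the characters
  let e : Chr p N m → (Nk N m ⧸ Vs →* Multiplicative (ZMod p)) := fun χ =>
    QuotientGroup.lift Vs (MonoidHom.mk' (fun u : Nk N m => Multiplicative.ofAdd (χ.1 u))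
      fun u v => by
        show Multiplicative.ofAdd (χ.1 (u * v : P)) = _
        rw [χ.2.add u u.2 v v.2]
        rfl) fun u hu => by
        have h1 : (u : P) ∈ Nk N (m + 1) := Subgroup.mem_subgroupOf.1 hu
        show Multiplicative.ofAdd (χ.1 u) = 1
        rw [χ.2.bot _ h1]
        rfl
  have he : ∀ (χ : Chr p N m) (u : Nk N m), Multiplicative.toAdd (e χ (u : Nk N m ⧸ Vs)) = χ.1 u :=
    fun _ _ => rfl
  have hbij : Function.Bijective e := by
    constructor
    · intro χ χ' h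
      refine Subtype.ext (funext fun u => ?_)
      by_cases hu : u ∈ Nk N m
      · rw [← he χ ⟨u, hu⟩, ← he χ' ⟨u, hu⟩, h]
      · rw [χ.2.out u hu, χ'.2.out u hu]
    · intro ψ
      have hd : ∀ u (hu : u ∈ Nk N m), (if h : u ∈ Nk N m then
          Multiplicative.toAdd (ψ ((⟨u, h⟩ : Nk N m) : Nk N m ⧸ Vs)) else 0) =
          Multiplicative.toAdd (ψ ((⟨u, hu⟩ : Nk N m) : Nk N m ⧸ Vs)) := fun u hu => dif_pos hu
      refine ⟨⟨fun u => if h : u ∈ Nk N m then
          Multiplicative.toAdd (ψ ((⟨u, h⟩ : Nk N m) : Nk N m ⧸ Vs)) else 0, ?_, ?_, ?_⟩, ?_⟩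
      · intro u hu v hv
        rw [hd u hu, hd v hv, hd (u * v) (mul_mem hu hv), ← toAdd_mul, ← map_mul]
        rfl
      · intro u hu
        have h1 : ((⟨u, nk_le N m hu⟩ : Nk N m) : Nk N m ⧸ Vs) = 1 :=
          (QuotientGroup.eq_one_iff _).2 (Subgroup.mem_subgroupOf.2 hu)
        rw [hd u (nk_le N m hu), h1, map_one]
        rfl
      · intro u hu
        exact dif_neg hu
      · refine MonoidHom.ext fun a => ?_
        obtain ⟨a, rfl⟩ := QuotientGroup.mk_surjective a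
        apply Multiplicative.toAdd.injective
        rw [he]
        exact hd a.1 a.2
  have horth : ∀ u ∈ Nk N m, ∑ χ : Chr p N m, ep p (-χ.1 u) =
      if u ∈ Nk N (m + 1) then (Nat.card (Nk N m ⧸ Vs) : ℂ) else 0 := by
    intro u hu
    have h1 := chr_orth hp hexp ((⟨u, hu⟩ : Nk N m) : Nk N m ⧸ Vs)
    have h2 : (((⟨u, hu⟩ : Nk N m) : Nk N m ⧸ Vs) = 1) = (u ∈ Nk N (m + 1)) := by
      rw [QuotientGroup.eq_one_iff]
      exact propext Subgroup.mem_subgroupOf
    simp only [h2] at h1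
    rw [← h1]
    exact Fintype.sum_bijective e hbij _ _ fun χ => by rw [he]
  -- the cardinalities
  have hcd : ∀ H : Subgroup P, (Finset.univ.filter fun u : P => u ∈ H).card = Nat.card H := by
    intro H
    rw [Nat.card_eq_fintype_card, Fintype.card_subtype]
  have hUV : Nat.card (Nk N m) = Nat.card (Nk N m ⧸ Vs) * Nat.card (Nk N (m + 1)) := by
    rw [Subgroup.card_eq_card_quotient_mul_card_subgroup Vs,
      Nat.card_congr (Subgroup.subgroupOfEquivOfLe (nk_le N m)).toEquiv]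
  have hU0 : (Nat.card (Nk N m) : ℂ) ≠ 0 := Nat.cast_ne_zero.2 Nat.card_pos.ne'
  have hGV : ∀ u ∈ Nk N (m + 1), G (u * x) = G x := by
    intro u hu
    have h1 : u * x = x * (x⁻¹ * u * x) := by group
    have h2 : x⁻¹ * u * x ∈ Nk N (m + 1) := by
      have h3 := (nk_normal N (m + 1)).conj_mem u hu x⁻¹
      rwa [inv_inv] at h3
    rw [h1, hG _ _ h2]
  unfold cmp
  rw [← Finset.mul_sum, Finset.sum_comm, hcd]
  have h1 : ∀ u ∈ Finset.univ.filter (fun u : P => u ∈ Nk N m),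
      ∑ χ : Chr p N m, ep p (-χ.1 u) * G (u * x) =
        if u ∈ Nk N (m + 1) then (Nat.card (Nk N m ⧸ Vs) : ℂ) * G x else 0 := by
    intro u hu
    rw [← Finset.sum_mul, horth u (Finset.mem_filter.1 hu).2]
    by_cases hv : u ∈ Nk N (m + 1)
    · rw [if_pos hv, if_pos hv, hGV u hv]
    · rw [if_neg hv, if_neg hv, zero_mul]
  rw [Finset.sum_congr rfl h1, ← Finset.sum_filter, Finset.sum_const, Finset.filter_filter]
  have h2 : (Finset.univ.filter fun u : P => u ∈ Nk N m ∧ u ∈ Nk N (m + 1)) =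
      Finset.univ.filter fun u : P => u ∈ Nk N (m + 1) := by
    refine Finset.filter_congr fun u _ => ?_
    exact ⟨fun h => h.2, fun h => ⟨nk_le N m h, h⟩⟩
  rw [h2, hcd, nsmul_eq_mul]
  have h3 : (Nat.card (Nk N m) : ℂ) = Nat.card (Nk N m ⧸ Vs) * Nat.card (Nk N (m + 1)) := by
    rw [hUV, Nat.cast_mul]
  field_simp
  rw [h3]
  ring

theorem chr_card [Finite P] [NeZero p] : Nat.card (Chr p N m) ≤ p ^ Nat.card P := by
  have h1 : Nat.card (Chr p N m) ≤ Nat.card (P → ZMod p) :=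
    Nat.card_le_card_of_injective (fun χ : Chr p N m => χ.1) Subtype.val_injective
  refine h1.trans (le_of_eq ?_)
  rw [Nat.card_fun, Nat.card_zmod]

end H70.UX
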