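import Pool.Agent.H70.UY.Chr
import Pool.Agent.H93.BY.Df
import Pool.Agent.H88.S3.Fav

/-!
# H70-UY-LKX: linked (MP_b39724_nt, UBX)

`lk_X`: `X.lk gk` gives `LGx.Lk` for the labels `lamX`, for all characters.
PROOF. Not `Lk`: (B) of helper88 for `z = Φ (t_v) = (0, χ_v, 0, 1)`, `v ∈ X.s` with `χ_v ≠ 0` at the bracket (`v ∉ E` by `X.ch.exc`): `z` acts trivially on `f 1 / f 2`, hence
`upc (χ_v (brk ..)) = ka z (rn ..) = 0`; the conjugating elements of `P` are lifted to `R` (`R → P ⧸ N` is onto), the bracket depends only on the classes modulo `f 2`.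
-/

set_option autoImplicit false
set_option linter.dupNamespace false

open scoped NumberField
open IsDedekindDomain
open scoped Classical

noncomputable section

namespace H70.UX

open H38.ML H63.MA H38.BB H38.BG H57.PC H57.BRA H77.WD H77.WE H77.PC3 H35.CF H35.UB H48.UX H77.UY
  H42.BX H62.BL H86.BX H93.BY

variable {K : Type} [Field K] [NumberField K] {Ω : Type} [Field Ω] [Algebra K Ω]
  {p κ : ℕ} {ζ : K} {D : RD0 K p ζ} {L : LDs D Ω} {A : GS D Ω} {P : Type} [Group P]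
  {N : Subgroup P} [N.Normal] {m : ℕ} {hn : Nk N (m + 1 + 1) = ⊥}

theorem lk_X [Fintype P] [NeZero p] (hp : p.Prime)
    (hgN : N = Subgroup.closure {x | x ∈ N ∧ x ^ p = 1})
    (hκ : ∀ x : P, x ^ p ^ κ = 1) (R : Subgroup (Hs p (LL N (m + 1) hn) (P ⧸ N)))
    {Fr : FR L} {Q' : DP K Ω} {B : H77.S3.SD D Q' A} {E : Finset (Pl K)}
    (X : Bs A P N (m + 1)) (hE : E ⊆ X.s)
    (hφ' : hat L A X.φ = (QuotientGroup.mk' N).comp (ev A X.g X.α)) (hch : X.ch Fr E)
    (hsur : Function.Surjective X.φ)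
    {kp : Gal(Ω/K) → P → ZMod p} (hK : Kp L Fr A B N (m + 1) X.s E X.φ X.χ kp)
    (hRr : (php hn hK).range = R)
    (gk : Fin (m + 2) → P) (hgk : ∀ k, gk k ∈ N) (hlk : X.lk gk)
    (χ : Fin (m + 2) → Chr p N m) (f : Fin (m + 2) → R) (Gk : Fin (m + 2) → P → ℂ) :
    (frK hp hgN hκ : Kx (frF hp hgN hκ : FG (p ^ (κ + 2)) (m + 1) (Pf R) R)).lgx.Lk
      (vdX hp hgN hκ R gk hgk χ f Gk).lam := by
  by_contra hnl
  obtain ⟨v, hv, u, hne⟩ := hlk
  refine hne ?_
  have hsurR : ∀ x : P, ∃ r : R, (x : P ⧸ N) = r.1.g := by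
    intro x
    obtain ⟨σ, hσ⟩ := hsur (x : P ⧸ N)
    exact ⟨⟨php hn hK σ, hRr ▸ ⟨σ, rfl⟩⟩, hσ.symm⟩
  choose r hr using fun j => hsurR (u j)
  set Dx := (frK hp hgN hκ : Kx (frF hp hgN hκ : FG (p ^ (κ + 2)) (m + 1) (Pf R) R)).lgx with hDx
  let x : Fin (m + 2) → Pf R := fun j => Pf.mk (u j) (r j) (hr j)
  let y : Fin (m + 2) → Pf R := fun j => x j * gP (gk j) (hgk j) * (x j)⁻¹
  have hF : Fl Dx.D.f := Dx.D.fl
  have hy1 : ∀ j, y j ∈ Dx.D.f 1 := fun j =>
    H42.BX.fl_conj hF 1 (x j) _ (gP_mem (hgk j) (hgk j))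
  have hbr : rn ((List.finRange (m + 2)).map y) ∈ frf R (m + 2) := by
    have h1 := H88.S3.rn_mem hF hy1 (w := List.finRange (m + 2)) (by simp [List.finRange_succ])
    rwa [List.length_finRange] at h1
  have hfst : (rn ((List.finRange (m + 2)).map y)).1.1 =
      brk (List.ofFn fun j => u j * gk j * (u j)⁻¹) := by
    have h1 := rn_map ((MonoidHom.fst P R).comp (Pf R).subtype) ((List.finRange (m + 2)).map y)
    rw [brk_rn, List.ofFn_eq_map]
    refine h1.trans ?_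
    rw [List.map_map]
    rfl
  have hN : ∀ w, w ∈ frf R (m + 2) → w.1.1 ∈ Nk N (m + 1) ∧ w.1.2 = 1 := fun w hw => mem_frf.1 hw
  have hvE : v ∉ E := by
    intro hvE
    refine hne ?_
    rw [← hfst]
    exact hch.exc v hvE _ (hN _ hbr).1
  have hφt : X.φ (L.t v) = 1 := by
    rw [← hat_inl L A X.φ v, DFunLike.congr_fun hφ' _]
    have hev : ev A X.g X.α (FreeGroup.of (Sum.inl v)) = X.g v := by
      unfold H35.UB.ev
      rw [FreeGroup.lift_apply_of]
      rfl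
    show ((ev A X.g X.α (FreeGroup.of (Sum.inl v)) : P) : P ⧸ N) = 1
    rw [hev]
    exact (QuotientGroup.eq_one_iff _).2 (hch.mem v hv hvE)
  let rt : R := ⟨php hn hK (L.t v), hRr ▸ ⟨L.t v, rfl⟩⟩
  let x₀ : Pf R := Pf.mk 1 rt (by
    show ((1 : P) : P ⧸ N) = X.φ (L.t v)
    rw [hφt]
    rfl)
  have hx0 : ∀ s ∈ Dx.D.f 1, x₀ * s * x₀⁻¹ * s⁻¹ ∈ Dx.D.f 2 := by
    intro s hs
    have h2 : s.1.2 = 1 := frf_one.1 hs
    have h3 : x₀ * s * x₀⁻¹ * s⁻¹ = 1 := by
      refine Pf.ext' ?_ ?_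
      · show (1 : P) * s.1.1 * (1 : P)⁻¹ * s.1.1⁻¹ = 1
        group
      · show rt * s.1.2 * rt⁻¹ * s.1.2⁻¹ = 1
        rw [h2]
        group
    rw [h3]
    exact Subgroup.one_mem _
  have h4 := H88.S3.falv Dx _ hnl hx0 ((List.finRange (m + 2)).map fun j => (j, r j)) (by
    rw [List.map_map]
    exact (List.Perm.of_eq (List.map_id _)))
  rw [List.map_map] at h4
  have h5 : rn ((List.finRange (m + 2)).map y) = rn ((List.finRange (m + 2)).map
      ((fun x => Dx.D.s (x.2 • (vdX hp hgN hκ R gk hgk χ f Gk).lam x.1)) ∘ fun j => (j, r j))) := by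
    have h6 := rn_cg hF ((List.finRange (m + 2)).map
      ((fun x => Dx.D.s (x.2 • (vdX hp hgN hκ R gk hgk χ f Gk).lam x.1)) ∘ fun j => (j, r j)))
      ((List.finRange (m + 2)).map y) (by
        rw [List.forall₂_map_left_iff, List.forall₂_map_right_iff, List.forall₂_same]
        intro j _
        refine ⟨Dx.D.s_mem _, ?_⟩
        show y j * (Dx.D.s (r j • lamX hp hgN hκ R (gk j) (hgk j) (χ j)))⁻¹ ∈ Dx.D.f 2
        have hnor : (frf R 2).Normal := frf_nor 2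
        have h8 : ((Dx.D.s (r j • lamX hp hgN hκ R (gk j) (hgk j) (χ j)) : Pf R) : Pf R ⧸ frf R 2) =
            ((y j : Pf R) : Pf R ⧸ frf R 2) := by
          have h9 := lgx_s (k := (frK hp hgN hκ : Kx (frF hp hgN hκ : FG (p ^ (κ + 2)) (m + 1) (Pf R) R)))
            (r j • lamX hp hgN hκ R (gk j) (hgk j) (χ j))
          have h7 : r j • lamX hp hgN hκ R (gk j) (hgk j) (χ j) =
            Lbx.act (x j) (lamX hp hgN hκ R (gk j) (hgk j) (χ j)) := lbx_smul (x j) _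
          refine h9.trans ?_
          rw [h7]
          rfl
        show y j * (Dx.D.s (r j • lamX hp hgN hκ R (gk j) (hgk j) (χ j)))⁻¹ ∈ frf R 2
        rw [← QuotientGroup.eq_one_iff, QuotientGroup.mk_mul, QuotientGroup.mk_inv, h8]
        exact mul_inv_cancel _) (by simp [List.finRange_succ])
    rw [List.length_map, List.length_finRange] at h6
    have h7 : Dx.D.f (m + 2 + 1) = ⊥ := Dx.D.bot
    rw [h7, Subgroup.mem_bot] at h6
    exact mul_inv_eq_one.1 h6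
  rw [← h5] at h4
  have h6 : kaF κ rt (rn ((List.finRange (m + 2)).map y)) = 0 := h4
  rw [kaF_of rt (hN _ hbr).1 (hN _ hbr).2, upc_eq0 hp] at h6
  have h7 : X.χ v (rn ((List.finRange (m + 2)).map y)).1.1 = 0 := by
    rw [← h6]
    exact (kpd_t hn hK hv (lm _ (hN _ hbr).1)).symm
  rw [← hfst]
  exact h7

end H70.UX
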