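import Pool.Agent.H70.UY.Chr
import Pool.Agent.H93.BY.Df

/-!
# H70-UY-ROX: the fixed part of BLG (MP_b39724_nt, UBX)

`rox_X`: `ROx` for the fixed part `rdX`, `jb = id`.
PROOF. `ztv` is `upc (χ v)` on the last layer for `v ∈ X.s`, `v ∉ E` (`kp (t_v) = χ v`, `φ (t_v) = 1`), and `0` for `v ∈ E` (`kp (F_v) = 0 = kp (t_v)`); `zta = 0` (`kp (a_i) = kp (b_i) = 0`).
`X.ch.eq` is a right eigenfunction, with `X.ch.inv` it is a left eigenfunction over `φ (F_v)`.
-/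

set_option autoImplicit false
set_option linter.dupNamespace false

open scoped NumberField commutatorElement
open IsDedekindDomain
open scoped Classical

noncomputable section

namespace H70.UX

open H38.ML H63.MA H38.BB H38.BG H57.PC H57.BRA H77.WD H77.WE H77.PC3 H35.CF H35.UB H48.UX H77.UY
  H42.BX H62.BL H86.BX H93.BY H77.INP

variable {K : Type} [Field K] [NumberField K] {Ω : Type} [Field Ω] [Algebra K Ω]
  {p κ : ℕ} {ζ : K} {D : RD0 K p ζ} {L : LDs D Ω} {A : GS D Ω} {P : Type} [Group P]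
  {N : Subgroup P} [N.Normal] {m : ℕ} {hn : Nk N (m + 1 + 1) = ⊥}

/-- the elements with `k = 0` -/
def Rk0 (R : Subgroup (Hs p (LL N (m + 1) hn) (P ⧸ N))) : Subgroup R where
  carrier := {r | r.1.k = 0}
  mul_mem' {x y} hx hy := by
    show (x.1 * y.1).k = 0
    rw [mul_k, show x.1.k = 0 from hx, show y.1.k = 0 from hy, H48.UX.tw_zero, add_zero]
  one_mem' := rfl
  inv_mem' {x} hx := by
    show (x.1⁻¹).k = 0
    rw [inv_k, show x.1.k = 0 from hx, H48.UX.tw_zero, neg_zero]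

theorem kaF_zero (hp : p.Prime) {R : Subgroup (Hs p (LL N (m + 1) hn) (P ⧸ N))} {r : R}
    (hr : r ∈ Rk0 R) {w : Pf R} (hw : w ∈ frf R (m + 2)) : kaF κ r w = 0 := by
  have hw' := mem_frf.1 hw
  rw [kaF_of r hw'.1 hw'.2, show r.1.k = 0 from hr, AddMonoidHom.zero_apply, upc_zero hp]

theorem lbR_2 {R : Subgroup (Hs p (LL N (m + 1) hn) (P ⧸ N))} {x : P} {r : R}
    (h : (x : P ⧸ N) = r.1.g) : (lbR R x r).1.2 = r := by
  unfold lbR
  rw [dif_pos h]
  rfl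

theorem rox_X [Fintype P] [NeZero p] (hp : p.Prime)
    (hgN : N = Subgroup.closure {x | x ∈ N ∧ x ^ p = 1})
    (hκ : ∀ x : P, x ^ p ^ κ = 1) (R : Subgroup (Hs p (LL N (m + 1) hn) (P ⧸ N)))
    {k j : ℕ} {z : K} {Mg Cg C' : ℕ} {C₁ Y : ℝ} {Fr : FR L} {Q : DP K Ω}
    {B : H77.S3.SD D Q A} {Zw E : Finset (Pl K)} {l : List (Pl K)} {W : Pl K → FW A}
    {Yw : Fin A.g → FW A} (hx : Fx k j z Mg Cg C' C₁ Y Fr B Zw l W Yw) (M : ℕ)
    (hS : H77.S3.Sml p k (p ^ k) (Hs p (LL N (m + 1) hn) (P ⧸ N)))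
    (X : Bs A P N (m + 1)) (hE : E ⊆ X.s) (hs : X.s ⊆ Zw)
    (hg1 : ∀ v, v ∉ X.s → X.g v = 1) (hφ : HonE L E X.s X.φ)
    (hφ' : hat L A X.φ = (QuotientGroup.mk' N).comp (ev A X.g X.α)) (hch : X.ch Fr E)
    (hG : ∀ v x, ‖X.G v x‖ ≤ 1)
    {kp : Gal(Ω/K) → P → ZMod p} (hK : Kp L Fr A B N (m + 1) X.s E X.φ X.χ kp)
    (hRr : (php hn hK).range = R) (hU : Unz L X.s (php hn hK)) :
    ROx (rdX Fr R X (php hn hK)) (wyX Fr B M Zw W Yw) B id
      (frK hp hgN hκ : Kx (frF hp hgN hκ : FG (p ^ (κ + 2)) (m + 1) (Pf R) R)).lgx := by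
  have hg : ∀ σ, (phR R (php hn hK) σ).1.g = X.φ σ := fun σ => by
    rw [phR_of R hRr]
    rfl
  have hk : ∀ σ, (phR R (php hn hK) σ).1.k = kpd hn hK σ := fun σ => by
    rw [phR_of R hRr]
    rfl
  have hevl : ∀ v, X.φ (L.t v) = (X.g v : P ⧸ N) := by
    intro v
    rw [← hat_inl L A X.φ v, DFunLike.congr_fun hφ' _]
    unfold H35.UB.ev
    rw [MonoidHom.comp_apply, FreeGroup.lift_apply_of]
    rfl
  have heva : ∀ i, X.φ (A.a i) = (X.α i : P ⧸ N) := by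
    intro i
    rw [← hat_inr L A X.φ i, DFunLike.congr_fun hφ' _]
    unfold H35.UB.ev
    rw [MonoidHom.comp_apply, FreeGroup.lift_apply_of]
    rfl
  have hone : ∀ v, v ∉ X.s → phR R (php hn hK) (L.t v) = 1 := by
    intro v hv
    by_cases hv0 : v ∈ D.S0
    · rw [Pool.Agent.H19.AB.t_S0 L hv0, map_one]
    · refine Subtype.ext ?_
      rw [phR_of R hRr, hU.2 v hv0 hv]
      rfl
  have hz0 : ∀ v ∈ X.s, ∀ u ∈ frf R (m + 2),
      ztv (frK hp hgN hκ : Kx (frF hp hgN hκ : FG (p ^ (κ + 2)) (m + 1) (Pf R) R)).lgx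
        (wyX Fr B M Zw W Yw) (phR R (php hn hK)) v u = upc p (κ + 1) (X.χ v u.1.1) := by
    intro v hv u hu
    have hv0 : v ∉ D.S0 := hx.out v (hs hv)
    have hcom : ⁅phR R (php hn hK) (L.t v), phR R (php hn hK) (Fr.F v)⁆ = 1 := by
      rw [commutatorElement_eq_one_iff_mul_comm]
      refine Subtype.ext ?_
      show (phR R (php hn hK) (L.t v)).1 * (phR R (php hn hK) (Fr.F v)).1 =
        (phR R (php hn hK) (Fr.F v)).1 * (phR R (php hn hK) (L.t v)).1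
      rw [phR_of R hRr, phR_of R hRr]
      exact (hx.com v hv0 _ hS (php hn hK) hU.1).symm
    have hpre : H1.S3.pre [v] v = [] := by
      unfold H1.S3.pre
      simp
    show kaF κ ((H1.S3.wd (fun v => phR R (php hn hK) (L.t v))
      (fun v => phR R (php hn hK) (Fr.F v)) (H1.S3.pre [v] v) *
        ⁅phR R (php hn hK) (L.t v), phR R (php hn hK) (Fr.F v)⁆)⁻¹) u -
      kaF κ ((H1.S3.wd (fun v => phR R (php hn hK) (L.t v))
      (fun v => phR R (php hn hK) (Fr.F v)) (H1.S3.pre [v] v) *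
        phR R (php hn hK) (L.t v))⁻¹) u = _
    rw [hpre, hcom]
    show kaF κ ((1 * 1 : R)⁻¹) u - kaF κ ((1 * phR R (php hn hK) (L.t v))⁻¹) u = _
    have hu' := mem_frf.1 hu
    rw [mul_one, inv_one, one_mul, kaF_zero hp (Subgroup.one_mem _) hu, zero_sub,
      kaF_of _ hu'.1 hu'.2, ← upc_neg hp]
    congr 1
    show -((phR R (php hn hK) (L.t v)).1⁻¹).k (lm u.1.1 hu'.1) = _
    rw [inv_k, AddMonoidHom.neg_apply, neg_neg, H48.UX.tw_apply, hg, hk, inv_inv]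
    by_cases hvE : v ∈ E
    · obtain ⟨x, hx'⟩ := QuotientGroup.mk_surjective (X.φ (L.t v))
      rw [kpd_t hn hK hv, hch.exc v hvE _ (ll_mem _), hch.exc v hvE _ hu'.1]
    · rw [kpd_t hn hK hv, hevl, (QuotientGroup.eq_one_iff _).2 (hch.mem v hv hvE), one_smul, ll_lm]
  refine ⟨hs, ?_, ?_, phR_sur R hRr, ?_, ?_, ?_, fun _ _ => norm_one.le, ?_, ?_, ?_⟩
  · intro v hv
    show lbR R (X.g v) (phR R (php hn hK) (L.t v)) = 1
    rw [hone v hv, hg1 v hv]
    unfold lbR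
    split_ifs with h
    · rfl
    · rfl
  · refine ⟨?_, fun v hv hv' => hone v hv'⟩
    obtain ⟨F, hF, hF'⟩ := hU.1
    refine ⟨F, hF, fun τ hτ => ?_⟩
    have h1 := MonoidHom.mem_ker.1 (hF' hτ)
    refine MonoidHom.mem_ker.2 (Subtype.ext ?_)
    show (phR R (php hn hK) τ).1 = 1
    rw [phR_of R hRr, h1]
  · intro v
    show phR R (php hn hK) (L.t v) = (lbR R (X.g v) (phR R (php hn hK) (L.t v))).1.2
    rw [lbR_2]
    rw [hg, hevl]
  · intro i
    show phR R (php hn hK) (A.a i) = (lbR R (X.α i) (phR R (php hn hK) (A.a i))).1.2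
    rw [lbR_2]
    rw [hg, heva]
  · intro v x
    show ‖(if x.1.2 = phR R (php hn hK) (Fr.F v) then X.G v x.1.1 else 0 : ℂ)‖ ≤ 1
    split_ifs
    · exact hG v _
    · rw [norm_zero]
      exact zero_le_one
  · intro v hv u hu x
    have hv' : v ∈ X.s := hv
    have hu1 : u ∈ frf R (m + 2) := hu
    have hu' := mem_frf.1 hu1
    show (if (u * x).1.2 = phR R (php hn hK) (Fr.F v) then X.G v (u * x).1.1 else 0 : ℂ) =
      ep (p ^ (κ + 2)) (ztv (frK hp hgN hκ :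
        Kx (frF hp hgN hκ : FG (p ^ (κ + 2)) (m + 1) (Pf R) R)).lgx
        (wyX Fr B M Zw W Yw) (phR R (php hn hK)) v u) *
          (if x.1.2 = phR R (php hn hK) (Fr.F v) then X.G v x.1.1 else 0 : ℂ)
    have h1 : (u * x).1.2 = x.1.2 := by
      show u.1.2 * x.1.2 = x.1.2
      rw [hu'.2, one_mul]
    rw [hz0 v hv' u hu1, upc_ep hp, h1]
    split_ifs with h2
    · have hxF : (x.1.1 : P ⧸ N) = X.φ (Fr.F v) := by
        rw [pf_g x, h2, hg]
      have hc : x.1.1⁻¹ * u.1.1 * x.1.1 ∈ Nk N (m + 1) := by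
        have h3 := (nk_normal N (m + 1)).conj_mem _ hu'.1 x.1.1⁻¹
        rwa [inv_inv] at h3
      have h4 := hch.inv v hv' x.1.1 hxF _ hc
      have h5 : x.1.1 * (x.1.1⁻¹ * u.1.1 * x.1.1) * x.1.1⁻¹ = u.1.1 := by group
      rw [h5] at h4
      have h6 := hch.eq v hv' x.1.1 _ hc
      have h7 : x.1.1 * (x.1.1⁻¹ * u.1.1 * x.1.1) = u.1.1 * x.1.1 := by group
      rw [h7, ← h4] at h6
      exact h6
    · rw [mul_zero]
  · intro i u hu x
    have hu1 : u ∈ frf R (m + 2) := hu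
    have ha : ∀ i, phR R (php hn hK) (A.a i) ∈ Rk0 R := fun i => by
      show (phR R (php hn hK) (A.a i)).1.k = 0
      rw [phR_of R hRr, php_a]
    have hb : ∀ i, phR R (php hn hK) (B.b i) ∈ Rk0 R := fun i => by
      show (phR R (php hn hK) (B.b i)).1.k = 0
      rw [phR_of R hRr, php_b]
    have hc : ∀ i, ⁅phR R (php hn hK) (A.a i), phR R (php hn hK) (B.b i)⁆ ∈ Rk0 R := fun i => by
      rw [commutatorElement_def]
      exact (Rk0 R).mul_mem ((Rk0 R).mul_mem ((Rk0 R).mul_mem (ha i) (hb i))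
        ((Rk0 R).inv_mem (ha i))) ((Rk0 R).inv_mem (hb i))
    have hw : ∀ l : List (Fin A.g), H1.S3.wd (fun i => phR R (php hn hK) (A.a i))
        (fun i => phR R (php hn hK) (B.b i)) l ∈ Rk0 R := by
      intro l
      unfold H1.S3.wd
      refine Subgroup.list_prod_mem _ fun y hy => ?_
      obtain ⟨i, -, rfl⟩ := List.mem_map.1 hy
      exact hc i
    have hz : zta (frK hp hgN hκ : Kx (frF hp hgN hκ : FG (p ^ (κ + 2)) (m + 1) (Pf R) R)).lgx
        B (phR R (php hn hK)) i u = 0 := by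
      show kaF κ ((H1.S3.wd (fun i => phR R (php hn hK) (A.a i))
        (fun i => phR R (php hn hK) (B.b i)) (H1.S3.pre (bl B (B.pl i)) i) *
          ⁅phR R (php hn hK) (A.a i), phR R (php hn hK) (B.b i)⁆)⁻¹) u -
        kaF κ ((H1.S3.wd (fun i => phR R (php hn hK) (A.a i))
        (fun i => phR R (php hn hK) (B.b i)) (H1.S3.pre (bl B (B.pl i)) i) *
          phR R (php hn hK) (A.a i))⁻¹) u = 0
      rw [kaF_zero hp ((Rk0 R).inv_mem ((Rk0 R).mul_mem (hw _) (hc i))) hu1,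
        kaF_zero hp ((Rk0 R).inv_mem ((Rk0 R).mul_mem (hw _) (ha i))) hu1, sub_zero]
    show (1 : ℂ) = ep (p ^ (κ + 2)) (zta (frK hp hgN hκ :
      Kx (frF hp hgN hκ : FG (p ^ (κ + 2)) (m + 1) (Pf R) R)).lgx
        B (phR R (php hn hK)) i u) * 1
    rw [hz, ep_zero, mul_one]
  · intro j hj
    exact absurd rfl (hj j)

end H70.UX
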