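import Pool.Agent.H70.UY.Smz
import Pool.Agent.H70.UY.Rox
import Pool.Agent.H70.UY.Lkx
import Pool.Agent.H48.UX.Unf

/-!
# H70-UY-CORE: `BGb` for `n = m + 1` from the box lemma BLG (MP_b39724_nt, UBX)

`BLGy`: the statement BLG for fixed `Y`. `cH`, `cP`, `cM`, `cN`: constants. `bgb_core`: the box inequality.
-/

set_option autoImplicit false
set_option linter.dupNamespace false

open scoped NumberField
open IsDedekindDomain
open scoped Classical

noncomputable section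

namespace H70.UX

open H38.ML H63.MA H38.BB H38.BG H57.PC H57.BRA H77.WD H77.WE H77.PC3 H35.CF H35.UB H48.UX H77.UY
  H42.BX H62.BL H86.BX H93.BY H77.INP

variable {K : Type} [Field K] [NumberField K] {Ω : Type} [Field Ω] [Algebra K Ω]
  {p : ℕ} {ζ : K} {D : RD0 K p ζ}

/-- BLG for fixed `Y` -/
def BLGy (D : RD0 K p ζ) (Ω : Type) [Field Ω] [Algebra K Ω] (Q : DP K Ω) (A : GS D Ω)
    (B : H77.S3.SD D Q A) (κ m c N : ℕ) (z : K) (C₁ A₁ C' : ℕ) (ε Y : ℝ) : Prop :=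
    ∀ (J : Type) [Fintype J] (y : H93.BX.Wy D A J) (jb : Fin A.g → J) (l : List (Pl K)),
      Fintype.card J ≤ c → y.Val →
      y.M = H93.BX.Mx (p ^ κ) m → Rlk y B jb l →
      H24.RK.NL (N + 1) z y.L →
      GLp p y.Fr (H93.BX.Mx (p ^ κ) m ^ (2 ^ m)) (C₁ * (3 * m + 4)) C' Y →
      (∀ v ∈ y.Z, v ∉ D.S0) → ∀ Z₀ : ℝ, Z₀ ≤ Y ^ C₁ → (∀ v, D.Gd v → (nm v : ℝ) ≤ Z₀ → v ∈ y.Z) →
    ∀ (n : ℕ) (P Qg Lm : Type) [Group P] [Group Qg] [MulAction Qg Lm] [Finite P] [Fintype Lm]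
      (Dx : LGx (p ^ κ) n P Qg Lm) (v : Vd n P Qg Lm), n + 1 ≤ m → Nat.card P ≤ m →
      Nat.card Lm ≤ m → IsPGroup p P → VOx v Dx → Dx.Lk v.lam →
    ∀ (ι : Type) (I : Finset ι) (r : ι → H93.BX.Rd A J P Qg)
      (h : ι → Fin (n + 2) → (Fin (n + 2) → Pl K) → ℂ)
      (lo hi : ι → Fin (n + 2) → ℝ), Rfx y B jb Dx C₁ Y I r → (∀ i ∈ I, H93.BX.Mis (h i)) →
      (∀ i ∈ I, ∀ k, Real.exp (Real.log Y ^ ε) ≤ lo i k ∧ lo i k ≤ hi i k ∧
        hi i k ≤ 2 * lo i k ∧ hi i k ≤ Z₀) →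
      ∑ i ∈ I, (nr (r i).T)⁻¹ * (∏ k, lo i k)⁻¹ *
        ‖∑ x ∈ Fintype.piFinset (fun k => BX D y.Z (r i).T (lo i k) (hi i k)),
          H93.BX.Fq y (r i) v x * ∏ k, h i k x‖ ≤ Real.log Y ^ (-(A₁ : ℝ))

theorem blg_y {Q : DP K Ω} {A : GS D Ω} {B : H77.S3.SD D Q A} {κ m c N : ℕ} {z : K}
    (h : BLG D Ω Q A B κ m c N z) (C₁ A₁ C' : ℕ) (ε : ℝ) (hε : 0 < ε) :
    ∃ Y₀ : ℝ, 3 ≤ Y₀ ∧ ∀ Y : ℝ, Y₀ ≤ Y → BLGy D Ω Q A B κ m c N z C₁ A₁ C' ε Y :=
  h C₁ A₁ C' ε hε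

/-- the order of the Heisenberg group -/
def cH (p c : ℕ) : ℕ := c * (p ^ c * (p * c))
/-- the order of the fibre product -/
def cP (p c : ℕ) : ℕ := c * cH p c
/-- the number of the labels -/
def cM (p κ c : ℕ) : ℕ := cP p c * (p ^ (κ + 2)) ^ cP p c
/-- the number of the summands -/
def cN (p c : ℕ) : ℕ := 2 ^ cH p c * (c ^ (c + 1) * ((p ^ c) ^ (c + 1) * cH p c ^ (c + 1)))

/-- small groups from the order -/
theorem sml_pg (hp : p.Prime) {k M : ℕ} (hM : M ≤ p ^ k) (H : Type) [Group H] [Finite H]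
    (hH : IsPGroup p H) (hc : Nat.card H ≤ M) : H77.S3.Sml p k (p ^ k) H := by
  have h1 : Nat.card H ≤ p ^ k := hc.trans hM
  refine ⟨hH, h1, fun x => ?_⟩
  have : Fact p.Prime := ⟨hp⟩
  obtain ⟨j, hj⟩ := IsPGroup.iff_card.1 hH
  rw [hj] at h1
  have h2 : j ≤ k := (Nat.pow_le_pow_iff_right hp.one_lt).1 h1
  have h3 : x ^ p ^ j = 1 := by
    rw [← hj]
    exact pow_card_eq_one'
  rw [← Nat.add_sub_of_le h2, pow_add, pow_mul, h3, one_pow]

theorem val_X (hp : p.Prime) {k j M : ℕ} {z : K} {Mg Cg C' : ℕ} {C₁ Y : ℝ} {L : LDs D Ω}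
    {Fr : FR L} {A : GS D Ω} {Q : DP K Ω} {B : H77.S3.SD D Q A} {Zw : Finset (Pl K)}
    {l : List (Pl K)} {W : Pl K → FW A} {Yw : Fin A.g → FW A}
    (hx : Fx k j z Mg Cg C' C₁ Y Fr B Zw l W Yw) (hM : M ≤ p ^ k) :
    (wyX Fr B M Zw W Yw).Val where
  v H _ _ hH hc φ hφ v hv := (hx.rel.2.2.1 H (sml_pg hp hM H hH hc) φ hφ).1 v hv
  j H _ _ hH hc φ hφ i := (hx.rel.2.2.1 H (sml_pg hp hM H hH hc) φ hφ).2 i

theorem rlk_X (hp : p.Prime) {k j M : ℕ} {z : K} {Mg Cg C' : ℕ} {C₁ Y : ℝ} {L : LDs D Ω}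
    {Fr : FR L} {A : GS D Ω} {Q : DP K Ω} {B : H77.S3.SD D Q A} {Zw : Finset (Pl K)}
    {l : List (Pl K)} {W : Pl K → FW A} {Yw : Fin A.g → FW A}
    (hx : Fx k j z Mg Cg C' C₁ Y Fr B Zw l W Yw) (hM : M ≤ p ^ k) :
    Rlk (wyX Fr B M Zw W Yw) B id l where
  inj := Function.injective_id
  sj _ := rfl
  nd := hx.nd
  mem := hx.ml
  rl H _ _ hH hc θ hθ := hx.rel.2.2.2 H (sml_pg hp hM H hH hc) θ hθ
  loc H _ _ hH hc φ hφ v hv := hx.loc v hv H (sml_pg hp hM H hH hc) φ hφ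

/-- the number of the subgroups -/
theorem sub_card {G : Type} [Group G] [Finite G] : Nat.card (Subgroup G) ≤ 2 ^ Nat.card G := by
  have : Fintype G := Fintype.ofFinite G
  refine (Nat.card_le_card_of_injective (fun H : Subgroup G => (H : Set G))
    SetLike.coe_injective).trans (le_of_eq ?_)
  rw [Nat.card_eq_fintype_card, Nat.card_eq_fintype_card, Fintype.card_set]

/-- THE BOX INEQUALITY for `n = m + 1` -/
theorem bgb_core [IsAlgClosure K Ω] (hp : p.Prime) (hζ : IsPrimitiveRoot ζ p)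
    {κ c k nn C' : ℕ} {z : K} (hκk : κ + 2 ≤ k) (hck : 3 * c + 1 ≤ k)
    (hk : H93.BX.Mx (p ^ (κ + 2)) (cM p κ c) ≤ p ^ k) {C₁ A₀ ε Y : ℝ} {c₁ a₁ : ℕ}
    (hc : C₁ ≤ c₁) (ha : A₀ + 1 ≤ a₁) (hY3 : 3 ≤ Y) (hYN : (cN p c : ℝ) ≤ Real.log Y)
    {L : LDs D Ω} {Fr : FR L} {A : GS D Ω} {Q : DP K Ω} {B : H77.S3.SD D Q A}
    {Zw : Finset (Pl K)} {l : List (Pl K)} {W : Pl K → FW A} {Yw : Fin A.g → FW A}
    (hF : Fx k (nn + 1) z (H93.BX.Mx (p ^ (κ + 2)) (cM p κ c) ^ (2 ^ cM p κ c))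
      (c₁ * (3 * cM p κ c + 4)) C' C₁ Y Fr B Zw l W Yw)
    (hB : BLGy D Ω Q A B (κ + 2) (cM p κ c) A.g nn z c₁ a₁ C' ε Y)
    {P : Type} [Group P] [Fintype P] (hP : Nat.card P ≤ c) (hκ : ∀ x : P, x ^ p ^ κ = 1)
    {N : Subgroup P} [N.Normal] {m : ℕ} (hn : Nk N (m + 1 + 1) = ⊥) (hne : Nk N (m + 1) ≠ ⊥)
    (hgN : N = Subgroup.closure {x | x ∈ N ∧ x ^ p = 1}) {E : Finset (Pl K)} (hE : E ⊆ Zw) :
    BGb Fr A W Zw E N (m + 1) C₁ A₀ ε Y := by
  intro gk fk hgf Gk hG1 hG2 hG3 ι I X hX1 hX2 hX3 hX4 hX5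
  have hp0 : NeZero p := ⟨hp.ne_zero⟩
  have hq0 : NeZero (p ^ (κ + 2)) := ⟨(Nat.pow_pos hp.pos).ne'⟩
  have hS : H77.S3.Sml p k (p ^ k) (Hs p (LL N (m + 1) hn) (P ⧸ N)) :=
    sml_hsl hp hκ hκk hP (uni_k hp c hck) hn hgN
  have hY0 : (0 : ℝ) < Y := by linarith
  have hlY : 1 ≤ Real.log Y := by
    rw [Real.le_log_iff_exp_le hY0]
    exact Real.exp_one_lt_three.le.trans hY3
  have hllY : 0 ≤ Real.log (Real.log Y) := Real.log_nonneg hlY
  have hYC : Y ^ C₁ ≤ Y ^ c₁ := by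
    rw [← Real.rpow_natCast]
    exact Real.rpow_le_rpow_of_exponent_le (by linarith) hc
  have hLC : Real.log Y ^ C₁ ≤ Real.log Y ^ c₁ := by
    rw [← Real.rpow_natCast]
    exact Real.rpow_le_rpow_of_exponent_le hlY hc
  have hnP : m + 1 + 1 < Nat.card P := n_lt hn hne
  have hc1 : 1 ≤ c := by omega
  have hcH1 : 1 ≤ cH p c := by
    unfold cH
    exact Nat.mul_pos hc1 (Nat.mul_pos (Nat.pow_pos hp.pos) (Nat.mul_pos hp.pos hc1))
  have hcardH : Nat.card (Hs p (LL N (m + 1) hn) (P ⧸ N)) ≤ cH p c := by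
    refine (card_hs p _ _).trans ?_
    have h3 : Nat.card (LL N (m + 1) hn) ≤ c := ll_card.trans hP
    have h4 : Nat.card (P ⧸ N) ≤ c :=
      (Nat.card_le_card_of_surjective _ QuotientGroup.mk_surjective).trans hP
    exact Nat.mul_le_mul h3 (Nat.mul_le_mul (Nat.pow_le_pow_right hp.pos h3)
      (Nat.mul_le_mul le_rfl h4))
  have hcP : 1 ≤ cP p c := Nat.mul_pos hc1 hcH1
  have hcPM : cP p c ≤ cM p κ c := Nat.le_mul_of_pos_right _ (Nat.pow_pos (Nat.pow_pos hp.pos))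
  have hccP : c ≤ cP p c := Nat.le_mul_of_pos_right _ hcH1
  -- the honest homomorphisms
  have hkp : ∀ i ∈ I, ∃ kp : Gal(Ω/K) → P → ZMod p,
      Kp L Fr A B N (m + 1) (X i).s E (X i).φ (X i).χ kp := fun i hi =>
    uni_fx hp hζ hF hκ hκk hP (uni_k hp c hck) hn hgN (X i) (hX1 i hi).1 (hX1 i hi).2.1
      (hX2 i hi).2.1 (hX2 i hi).2.2.2.1 (hX3 i hi).1 (hX3 i hi).2.1
  choose! kp hK using hkp
  obtain ⟨Φ, hΦ⟩ : ∃ Φ : ι → Gal(Ω/K) →* Hs p (LL N (m + 1) hn) (P ⧸ N),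
      ∀ i (hi : i ∈ I), Φ i = php hn (hK i hi) :=
    ⟨fun i => if h : Kp L Fr A B N (m + 1) (X i).s E (X i).φ (X i).χ (kp i) then php hn h else 1,
      fun i hi => dif_pos (hK i hi)⟩
  have hw0 : ∀ i ∈ I, 0 ≤ (nr (X i).s)⁻¹ * (∏ k, (X i).lo k)⁻¹ := by
    intro i hi
    refine mul_nonneg (inv_nonneg.2 (Finset.prod_nonneg fun _ _ => Nat.cast_nonneg _)) (inv_nonneg.2 (Finset.prod_nonneg fun k _ => ?_))
    exact (Real.exp_nonneg _).trans (hX4 i hi k).1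
  -- the sum for fixed `R`
  have hmain : ∀ R : Subgroup (Hs p (LL N (m + 1) hn) (P ⧸ N)),
      ∑ i ∈ I.filter (fun i => (Φ i).range = R), (nr (X i).s)⁻¹ * (∏ k, (X i).lo k)⁻¹ *
        ‖(X i).smz W Zw gk Gk‖ ≤
      (c ^ (c + 1) * ((p ^ c) ^ (c + 1) * cH p c ^ (c + 1)) : ℕ) * Real.log Y ^ (-(a₁ : ℝ)) := by
    intro R
    have hfR : Fintype R := Fintype.ofFinite R
    obtain ⟨S, hSd⟩ : ∃ S : ι → (Fin (m + 2) → Chr p N m) → (Fin (m + 2) → R) → ℂ,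
        ∀ i χ f, S i χ f = ∑ q ∈ Fintype.piFinset (fun k => BX D Zw (X i).s ((X i).lo k) ((X i).hi k)),
            H93.BX.Fq (wyX Fr B (H93.BX.Mx (p ^ (κ + 2)) (cM p κ c)) Zw W Yw) (rdX Fr R (X i) (Φ i))
              (vdX hp hgN hκ R gk (fun k => (hgf k).1) χ f Gk) q := ⟨_, fun _ _ _ => rfl⟩
    obtain ⟨cd, hcd⟩ : ∃ cd : (Fin (m + 2) → Chr p N m) → (Fin (m + 2) → R) → Prop,
        ∀ χ f, cd χ f ↔ ∀ k, f k • lamX hp hgN hκ R (gk k) ((hgf k).1) (χ k) =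
            lamX hp hgN hκ R (gk k) ((hgf k).1) (χ k) := ⟨_, fun _ _ => Iff.rfl⟩
    obtain ⟨u, hu⟩ : ∃ u : ℕ, u = (Finset.univ.filter fun x : P => x ∈ Nk N m).card := ⟨_, rfl⟩
    have hb : ∀ i ∈ I.filter (fun i => (Φ i).range = R), ‖(X i).smz W Zw gk Gk‖ ≤
        (u : ℝ) ^ (m + 2) * ∑ χ, ∑ f, if cd χ f then ‖S i χ f‖ else 0 := by
      intro i hi
      obtain ⟨hiI, hiR⟩ := Finset.mem_filter.1 hi
      rw [smz_X hp hgN hκ R hF (H93.BX.Mx (p ^ (κ + 2)) (cM p κ c)) hS (X i) (hX1 i hiI).1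
        (hX1 i hiI).2.1 (hX2 i hiI).1 (hX2 i hiI).2.1 (hX2 i hiI).2.2.2.1 (hX3 i hiI).1 (hK i hiI)
        (by rw [← hΦ i hiI]; exact hiR) gk (fun k => (hgf k).1) (fun k => (hgf k).2.2) hG2 hG3,
        ← hu, norm_mul, norm_pow, Complex.norm_natCast]
      refine mul_le_mul_of_nonneg_left ?_ (by positivity)
      refine (norm_sum_le _ _).trans (Finset.sum_le_sum fun χ _ => ?_)
      refine (norm_sum_le _ _).trans (Finset.sum_le_sum fun f _ => le_of_eq ?_)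
      by_cases h : cd χ f
      · rw [if_pos h, if_pos ((hcd χ f).1 h), hSd, hΦ i hiI]
      · rw [if_neg h, if_neg fun h1 => h ((hcd χ f).2 h1), norm_zero]
    have hbl : ∀ χ f, cd χ f → ∑ i ∈ I.filter (fun i => (Φ i).range = R),
        (nr (X i).s)⁻¹ * (∏ k, (X i).lo k)⁻¹ * ‖S i χ f‖ ≤ Real.log Y ^ (-(a₁ : ℝ)) := by
      intro χ f hcf
      rcases (I.filter (fun i => (Φ i).range = R)).eq_empty_or_nonempty with he | ⟨i₀, hi₀⟩
      · rw [he, Finset.sum_empty]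
        exact Real.rpow_nonneg (by linarith) _
      obtain ⟨hi₀I, hi₀R⟩ := Finset.mem_filter.1 hi₀
      have hlk : (frK hp hgN hκ : Kx (frF hp hgN hκ : FG (p ^ (κ + 2)) (m + 1) (Pf R) R)).lgx.Lk
          (vdX hp hgN hκ R gk (fun k => (hgf k).1) χ f Gk).lam :=
        lk_X hp hgN hκ R (X i₀) (hX1 i₀ hi₀I).1 (hX2 i₀ hi₀I).2.2.2.1 (hX3 i₀ hi₀I).1
          (hX2 i₀ hi₀I).2.2.1 (hK i₀ hi₀I) (by rw [← hΦ i₀ hi₀I]; exact hi₀R) gk
          (fun k => (hgf k).1) (hX3 i₀ hi₀I).2.2 χ f Gk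
      have hvox : VOx (vdX hp hgN hκ R gk (fun k => (hgf k).1) χ f Gk) (frK hp hgN hκ).lgx :=
        vox_X hp hgN hκ R gk (fun k => (hgf k).1) χ f Gk hG1 ((hcd χ f).1 hcf)
      have hrfx : Rfx (wyX Fr B (H93.BX.Mx (p ^ (κ + 2)) (cM p κ c)) Zw W Yw) B id
          (frK hp hgN hκ : Kx (frF hp hgN hκ : FG (p ^ (κ + 2)) (m + 1) (Pf R) R)).lgx c₁ Y
          (I.filter (fun i => (Φ i).range = R)) (fun i => rdX Fr R (X i) (Φ i)) := {
        ok := fun i hi => by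
          obtain ⟨hiI, hiR⟩ := Finset.mem_filter.1 hi
          rw [hΦ i hiI] at hiR ⊢
          exact rox_X hp hgN hκ R hF _ hS (X i) (hX1 i hiI).1 (hX1 i hiI).2.1 (hX2 i hiI).1
            (hX2 i hiI).2.1 (hX2 i hiI).2.2.2.1 (hX3 i hiI).1 (hX2 i hiI).2.2.2.2 (hK i hiI) hiR
            (php_unz hn hp (X i) (hX1 i hiI).1 (hX2 i hiI).2.1 (hX2 i hiI).2.2.2.1 (hX3 i hiI).1
              (hK i hiI))
        nr := fun i hi => ((hX1 i (Finset.mem_filter.1 hi).1).2.2.1).trans hYC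
        card := fun i hi => ((hX1 i (Finset.mem_filter.1 hi).1).2.2.2).trans
          (mul_le_mul_of_nonneg_right hc hllY)
        mul := fun s => by
          refine le_trans ?_ ((hX5 s).trans hLC)
          exact_mod_cast Finset.card_le_card fun i hi => by
            obtain ⟨h1, h2⟩ := Finset.mem_filter.1 hi
            exact Finset.mem_filter.2 ⟨(Finset.mem_filter.1 h1).1, h2⟩ }
      have hcpf : Nat.card (Pf R) ≤ cP p c := pf_card hP
      have h1 := hB (Fin A.g) (wyX Fr B (H93.BX.Mx (p ^ (κ + 2)) (cM p κ c)) Zw W Yw) id l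
        (by rw [Fintype.card_fin]) (val_X hp hF hk) rfl (rlk_X hp hF hk) hF.nl hF.gl hF.out
        (Y ^ C₁) hYC hF.all m (Pf R) R
        (Lbx (frK hp hgN hκ : Kx (frF hp hgN hκ : FG (p ^ (κ + 2)) (m + 1) (Pf R) R)))
        (frK hp hgN hκ : Kx (frF hp hgN hκ : FG (p ^ (κ + 2)) (m + 1) (Pf R) R)).lgx
        (vdX hp hgN hκ R gk (fun k => (hgf k).1) χ f Gk) (by omega) (hcpf.trans hcPM)
        (lbx_card.trans (Nat.mul_le_mul hcpf (Nat.pow_le_pow_right (Nat.pow_pos hp.pos) hcpf)))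
        (pf_pg hp hgN hκ) hvox hlk ι (I.filter (fun i => (Φ i).range = R))
        (fun i => rdX Fr R (X i) (Φ i)) (fun _ _ _ => 1) (fun i => (X i).lo) (fun i => (X i).hi)
        hrfx (fun i _ => ⟨fun _ _ => norm_one.le, fun _ _ _ => rfl⟩)
        (fun i hi j => hX4 i (Finset.mem_filter.1 hi).1 j)
      refine le_trans (le_of_eq ?_) h1
      refine Finset.sum_congr rfl fun i _ => ?_
      rw [hSd]
      congr 2
      refine Finset.sum_congr rfl fun q _ => ?_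
      rw [Finset.prod_const_one, mul_one]
    have hu' : u ≤ c := by
      rw [hu]
      refine (Finset.card_filter_le _ _).trans ?_
      rw [Finset.card_univ, ← Nat.card_eq_fintype_card]
      exact hP
    have hLp : 0 ≤ Real.log Y ^ (-(a₁ : ℝ)) := Real.rpow_nonneg (by linarith) _
    calc ∑ i ∈ I.filter (fun i => (Φ i).range = R), (nr (X i).s)⁻¹ * (∏ k, (X i).lo k)⁻¹ *
          ‖(X i).smz W Zw gk Gk‖
        ≤ ∑ i ∈ I.filter (fun i => (Φ i).range = R), (nr (X i).s)⁻¹ * (∏ k, (X i).lo k)⁻¹ *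
          ((u : ℝ) ^ (m + 2) * ∑ χ, ∑ f, if cd χ f then ‖S i χ f‖ else 0) :=
          Finset.sum_le_sum fun i hi =>
            mul_le_mul_of_nonneg_left (hb i hi) (hw0 i (Finset.mem_filter.1 hi).1)
      _ = (u : ℝ) ^ (m + 2) * ∑ χ, ∑ f, if cd χ f then
            ∑ i ∈ I.filter (fun i => (Φ i).range = R),
              (nr (X i).s)⁻¹ * (∏ k, (X i).lo k)⁻¹ * ‖S i χ f‖ else 0 := by
          have h1 : ∀ i, (nr (X i).s)⁻¹ * (∏ k, (X i).lo k)⁻¹ *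
              ((u : ℝ) ^ (m + 2) * ∑ χ, ∑ f, if cd χ f then ‖S i χ f‖ else 0) =
              (u : ℝ) ^ (m + 2) * ∑ χ, ∑ f, if cd χ f then
                (nr (X i).s)⁻¹ * (∏ k, (X i).lo k)⁻¹ * ‖S i χ f‖ else 0 := by
            intro i
            rw [mul_left_comm, Finset.mul_sum]
            congr 1
            refine Finset.sum_congr rfl fun χ _ => ?_
            rw [Finset.mul_sum]
            refine Finset.sum_congr rfl fun f _ => ?_
            rw [mul_ite, mul_zero]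
          rw [Finset.sum_congr rfl fun i _ => h1 i, ← Finset.mul_sum, Finset.sum_comm]
          congr 1
          refine Finset.sum_congr rfl fun χ _ => ?_
          rw [Finset.sum_comm]
          refine Finset.sum_congr rfl fun f _ => ?_
          by_cases h : cd χ f
          · rw [if_pos h]
            exact Finset.sum_congr rfl fun i _ => if_pos h
          · rw [if_neg h]
            exact Finset.sum_eq_zero fun i _ => if_neg h
      _ ≤ (u : ℝ) ^ (m + 2) * ∑ χ : Fin (m + 2) → Chr p N m, ∑ f : Fin (m + 2) → R,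
            Real.log Y ^ (-(a₁ : ℝ)) := by
          refine mul_le_mul_of_nonneg_left (Finset.sum_le_sum fun χ _ =>
            Finset.sum_le_sum fun f _ => ?_) (by positivity)
          by_cases h : cd χ f
          · rw [if_pos h]
            exact hbl χ f h
          · rw [if_neg h]
            exact hLp
      _ = ((u ^ (m + 2) * (Nat.card (Chr p N m) ^ (m + 2) * Nat.card R ^ (m + 2)) : ℕ) : ℝ) *
            Real.log Y ^ (-(a₁ : ℝ)) := by
          rw [Finset.sum_const, Finset.sum_const, Finset.card_univ, Finset.card_univ,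
            Fintype.card_fun, Fintype.card_fun, Fintype.card_fin, nsmul_eq_mul, nsmul_eq_mul,
            Nat.card_eq_fintype_card, Nat.card_eq_fintype_card]
          push_cast
          ring
      _ ≤ _ := by
          refine mul_le_mul_of_nonneg_right ?_ hLp
          have hm2 : m + 2 ≤ c + 1 := by omega
          have hchr : Nat.card (Chr p N m) ≤ p ^ c :=
            chr_card.trans (Nat.pow_le_pow_right hp.pos hP)
          have hR : Nat.card R ≤ cH p c :=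
            (Nat.card_le_card_of_injective _ Subtype.val_injective).trans hcardH
          exact_mod_cast Nat.mul_le_mul
            ((Nat.pow_le_pow_left hu' _).trans (Nat.pow_le_pow_right hc1 hm2))
            (Nat.mul_le_mul ((Nat.pow_le_pow_left hchr _).trans
              (Nat.pow_le_pow_right (Nat.pow_pos hp.pos) hm2))
              ((Nat.pow_le_pow_left hR _).trans (Nat.pow_le_pow_right hcH1 hm2)))
  -- the sum over `R`
  have hLp : 0 ≤ Real.log Y ^ (-(a₁ : ℝ)) := Real.rpow_nonneg (by linarith) _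
  have hfS : Finite (Subgroup (Hs p (LL N (m + 1) hn) (P ⧸ N))) :=
    Finite.of_injective (fun H : Subgroup (Hs p (LL N (m + 1) hn) (P ⧸ N)) =>
      (H : Set (Hs p (LL N (m + 1) hn) (P ⧸ N)))) SetLike.coe_injective
  have hcS : ((I.image fun i => (Φ i).range).card : ℕ) ≤ 2 ^ cH p c := by
    have : Fintype (Subgroup (Hs p (LL N (m + 1) hn) (P ⧸ N))) := Fintype.ofFinite _
    refine (Finset.card_le_univ _).trans ?_
    rw [← Nat.card_eq_fintype_card]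
    exact sub_card.trans (Nat.pow_le_pow_right (by norm_num) hcardH)
  calc ∑ i ∈ I, (nr (X i).s)⁻¹ * (∏ k, (X i).lo k)⁻¹ * ‖(X i).smz W Zw gk Gk‖
      = ∑ R ∈ I.image (fun i => (Φ i).range), ∑ i ∈ I.filter (fun i => (Φ i).range = R),
          (nr (X i).s)⁻¹ * (∏ k, (X i).lo k)⁻¹ * ‖(X i).smz W Zw gk Gk‖ :=
        (Finset.sum_fiberwise_of_maps_to (fun i hi => Finset.mem_image_of_mem _ hi) _).symm
    _ ≤ ∑ R ∈ I.image (fun i => (Φ i).range),
          (c ^ (c + 1) * ((p ^ c) ^ (c + 1) * cH p c ^ (c + 1)) : ℕ) *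
            Real.log Y ^ (-(a₁ : ℝ)) := Finset.sum_le_sum fun R _ => hmain R
    _ ≤ (cN p c : ℝ) * Real.log Y ^ (-(a₁ : ℝ)) := by
        rw [Finset.sum_const, nsmul_eq_mul, ← mul_assoc]
        refine mul_le_mul_of_nonneg_right ?_ hLp
        unfold cN
        exact_mod_cast Nat.mul_le_mul_right _ hcS
    _ ≤ Real.log Y ^ (1 : ℝ) * Real.log Y ^ (-(a₁ : ℝ)) := by
        rw [Real.rpow_one]
        exact mul_le_mul_of_nonneg_right hYN hLp
    _ = Real.log Y ^ (1 + -(a₁ : ℝ)) := (Real.rpow_add (by linarith) _ _).symm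
    _ ≤ Real.log Y ^ (-A₀) := Real.rpow_le_rpow_of_exponent_le hlY (by linarith)

end H70.UX
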