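import Pool.Agent.H70.UY.Chr
import Pool.Agent.H93.BY.Df

/-!
# H70-UY-FQX: the summand of BLG (MP_b39724_nt, UBX)

`fq_X`: the summand of BLG for the fixed part `rdX` and the variable part `vdX` is the summand of the box, restricted to the `q` with `Φ (F_{q k}) = f k`.
PROOF. `thq` is a homomorphism to `Pf R` with first component `X.th gk q` and second component `hat L A Φ` (for `v ∉ X.s` both labels are `1`, for the variable primes `Φ (t_q) = 1`),
so at `W v` the second component is `Φ (F_v)`.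
-/

set_option autoImplicit false
set_option linter.dupNamespace false

open scoped NumberField
open IsDedekindDomain
open scoped Classical

noncomputable section

namespace H70.UX

open H38.ML H63.MA H38.BB H38.BG H57.PC H57.BRA H77.WD H77.WE H77.PC3 H35.CF H35.UB H48.UX H77.UY
  H42.BX H62.BL H86.BX H93.BY

variable {K : Type} [Field K] [NumberField K] {Ω : Type} [Field Ω] [Algebra K Ω]
  {p κ : ℕ} {ζ : K} {D : RD0 K p ζ} {L : LDs D Ω} {A : GS D Ω} {P : Type} [Group P]
  {N : Subgroup P} [N.Normal] {m : ℕ} {hn : Nk N (m + 1 + 1) = ⊥}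

theorem fq_X [Fintype P] [NeZero p] (hp : p.Prime)
    (hgN : N = Subgroup.closure {x | x ∈ N ∧ x ^ p = 1})
    (hκ : ∀ x : P, x ^ p ^ κ = 1) (R : Subgroup (Hs p (LL N (m + 1) hn) (P ⧸ N)))
    {Fr : FR L} {Q' : DP K Ω} {B : H77.S3.SD D Q' A} {Zw E : Finset (Pl K)} (M : ℕ)
    {W : Pl K → FW A} (Yw : Fin A.g → FW A) (X : Bs A P N (m + 1)) (hs : X.s ⊆ Zw)
    (hg1 : ∀ v, v ∉ X.s → X.g v = 1)
    (hφ' : hat L A X.φ = (QuotientGroup.mk' N).comp (ev A X.g X.α))
    {kp : Gal(Ω/K) → P → ZMod p} (hK : Kp L Fr A B N (m + 1) X.s E X.φ X.χ kp)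
    (hRr : (php hn hK).range = R) (hU : Unz L X.s (php hn hK))
    (hW : ∀ v ∈ Zw, hat L A (php hn hK) (W v) = php hn hK (Fr.F v))
    (gk : Fin (m + 2) → P) (hgk : ∀ k, gk k ∈ N) (χ : Fin (m + 2) → Chr p N m)
    (f : Fin (m + 2) → R) (Gk : Fin (m + 2) → P → ℂ) {q : Fin (m + 2) → Pl K}
    (hq : q ∈ Fintype.piFinset fun k => BX D Zw X.s (X.lo k) (X.hi k)) :
    H93.BX.Fq (wyX Fr B M Zw W Yw) (rdX Fr R X (php hn hK)) (vdX hp hgN hκ R gk hgk χ f Gk) q =
      if Function.Injective q ∧ ∀ k, phR R (php hn hK) (Fr.F (q k)) = f k then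
        (∏ v ∈ X.s, X.G v (X.th gk q (W v))) *
          ∏ k, cmp p N m (Gk k) (χ k).1 (X.th gk q (W (q k))) else 0 := by
  have hm : ∀ k, q k ∈ Zw ∧ D.Gd (q k) ∧ q k ∉ X.s := by
    intro k
    have h := Finset.mem_filter.1 (Fintype.mem_piFinset.1 hq k)
    exact ⟨h.1, h.2.1, h.2.2.1⟩
  -- the labels
  have hev : ∀ v, (X.g v : P ⧸ N) = X.φ (L.t v) := by
    intro v
    have h := DFunLike.congr_fun hφ' (FreeGroup.of (Sum.inl v))
    rw [hat_inl] at h
    rw [h]
    unfold H35.UB.ev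
    rw [MonoidHom.comp_apply, FreeGroup.lift_apply_of]
    rfl
  have hea : ∀ i, (X.α i : P ⧸ N) = X.φ (A.a i) := by
    intro i
    have h := DFunLike.congr_fun hφ' (FreeGroup.of (Sum.inr i))
    unfold H77.WD.hat H35.UB.ev at h
    rw [FreeGroup.lift_apply_of, MonoidHom.comp_apply, FreeGroup.lift_apply_of] at h
    exact h.symm
  have hc : ∀ (x : P) (σ : Gal(Ω/K)), (x : P ⧸ N) = X.φ σ →
      (x : P ⧸ N) = (phR R (php hn hK) σ).1.g := by
    intro x σ h
    rw [phR_of R hRr, php_apply]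
    exact h
  have hlb : ∀ (x : P) (σ : Gal(Ω/K)), (x : P ⧸ N) = X.φ σ →
      (lbR R x (phR R (php hn hK) σ)).1.1 = x ∧
        (lbR R x (phR R (php hn hK) σ)).1.2 = phR R (php hn hK) σ := by
    intro x σ h
    have h1 : lbR R x (phR R (php hn hK) σ) = Pf.mk x _ (hc x σ h) := dif_pos (hc x σ h)
    rw [h1]
    exact ⟨rfl, rfl⟩
  obtain ⟨Θ, hΘ⟩ : ∃ Θ : FW A →* Pf R, Θ = H93.BX.thq (rdX Fr R X (php hn hK))
    (vdX hp hgN hκ R gk hgk χ f Gk) q := ⟨_, rfl⟩
  have hΘv : ∀ v, Θ (FreeGroup.of (Sum.inl v)) =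
      lbq q (fun k => gP (gk k) (hgk k)) (fun v => lbR R (X.g v) (phR R (php hn hK) (L.t v))) v := by
    intro v
    rw [hΘ]
    unfold H93.BX.thq
    rw [FreeGroup.lift_apply_of]
    rfl
  have hΘi : ∀ i, Θ (FreeGroup.of (Sum.inr i)) = lbR R (X.α i) (phR R (php hn hK) (A.a i)) := by
    intro i
    rw [hΘ]
    unfold H93.BX.thq
    rw [FreeGroup.lift_apply_of]
    rfl
  have h1 : ∀ w, (Θ w).1.1 = X.th gk q w := by
    have h : ((MonoidHom.fst P R).comp (Pf R).subtype).comp Θ = X.th gk q := by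
      refine FreeGroup.ext_hom _ _ fun x => ?_
      unfold Bs.th H35.UB.ev
      rw [FreeGroup.lift_apply_of]
      rcases x with v | i
      · show (Θ (FreeGroup.of (Sum.inl v))).1.1 = _
        rw [hΘv]
        show _ = dite _ _ _
        unfold lbq
        by_cases h : ∃ k, q k = v
        · rw [dif_pos h, dif_pos h]
          rfl
        · rw [dif_neg h, dif_neg h]
          exact (hlb _ _ (hev v)).1
      · show (Θ (FreeGroup.of (Sum.inr i))).1.1 = X.α i
        rw [hΘi]
        exact (hlb _ _ (hea i)).1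
    intro w
    exact DFunLike.congr_fun h w
  have h2 : ∀ w, (Θ w).1.2 = hat L A (phR R (php hn hK)) w := by
    have h : ((MonoidHom.snd P R).comp (Pf R).subtype).comp Θ = hat L A (phR R (php hn hK)) := by
      refine FreeGroup.ext_hom _ _ fun x => ?_
      unfold H77.WD.hat
      rw [FreeGroup.lift_apply_of]
      rcases x with v | i
      · show (Θ (FreeGroup.of (Sum.inl v))).1.2 = phR R (php hn hK) (L.t v)
        rw [hΘv]
        unfold lbq
        by_cases h : ∃ k, q k = v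
        · rw [dif_pos h]
          obtain ⟨k, rfl⟩ := h
          symm
          apply Subtype.ext
          rw [phR_of R hRr, hU.2 _ (hm k).2.1.1 (hm k).2.2]
          rfl
        · rw [dif_neg h]
          exact (hlb _ _ (hev v)).2
      · show (Θ (FreeGroup.of (Sum.inr i))).1.2 = phR R (php hn hK) (A.a i)
        rw [hΘi]
        exact (hlb _ _ (hea i)).2
    intro w
    exact DFunLike.congr_fun h w
  have h3 : ∀ v ∈ Zw, (Θ (W v)).1.2 = phR R (php hn hK) (Fr.F v) := by
    intro v hv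
    rw [h2]
    apply Subtype.ext
    rw [phR_of R hRr, ← hW v hv]
    have h : R.subtype.comp (hat L A (phR R (php hn hK))) = hat L A (php hn hK) := by
      refine FreeGroup.ext_hom _ _ fun x => ?_
      unfold H77.WD.hat
      rw [MonoidHom.comp_apply, FreeGroup.lift_apply_of, FreeGroup.lift_apply_of]
      rcases x with v | i
      · exact phR_of R hRr _
      · exact phR_of R hRr _
    exact DFunLike.congr_fun h (W v)
  have hadm : Adm X.s q ↔ Function.Injective q := ⟨fun h => h.1, fun h => ⟨h, fun k => (hm k).2.2⟩⟩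
  show (if Adm X.s q then (∏ v ∈ X.s, (rdX Fr R X (php hn hK)).G v (H93.BX.thq _ _ q (W v))) *
    (∏ j : Fin A.g, (1 : ℂ)) *
      ∏ k, (vdX hp hgN hκ R gk hgk χ f Gk).G k (H93.BX.thq _ _ q (W (q k))) else 0) = _
  rw [← hΘ]
  by_cases hi : Function.Injective q
  · rw [if_pos (hadm.2 hi), Finset.prod_const_one, mul_one]
    have e1 : ∏ v ∈ X.s, (rdX Fr R X (php hn hK)).G v (Θ (W v)) =
        ∏ v ∈ X.s, X.G v (X.th gk q (W v)) := by
      refine Finset.prod_congr rfl fun v hv => ?_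
      show (if (Θ (W v)).1.2 = phR R (php hn hK) (Fr.F v) then X.G v (Θ (W v)).1.1 else 0) = _
      rw [if_pos (h3 v (hs hv)), h1]
    have e2 : ∀ k, (vdX hp hgN hκ R gk hgk χ f Gk).G k (Θ (W (q k))) =
        if phR R (php hn hK) (Fr.F (q k)) = f k then
          cmp p N m (Gk k) (χ k).1 (X.th gk q (W (q k))) else 0 := by
      intro k
      show (if (Θ (W (q k))).1.2 = f k then cmp p N m (Gk k) (χ k).1 (Θ (W (q k))).1.1 else 0) = _
      rw [h3 _ (hm k).1, h1]
    rw [e1, Finset.prod_congr rfl fun k _ => e2 k]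
    by_cases hf : ∀ k, phR R (php hn hK) (Fr.F (q k)) = f k
    · rw [if_pos ⟨hi, hf⟩]
      congr 1
      exact Finset.prod_congr rfl fun k _ => if_pos (hf k)
    · rw [if_neg fun h => hf h.2]
      push Not at hf
      obtain ⟨k, hk⟩ := hf
      rw [Finset.prod_eq_zero (Finset.mem_univ k) (if_neg hk), mul_zero]
  · rw [if_neg fun h => hi (hadm.1 h), if_neg fun h => hi h.1]

end H70.UX
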