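import Pool.Agent.H70.UY.Chr
import Pool.Agent.H93.BY.Df

/-!
# H70-UY-VOX: the variable part of BLG (MP_b39724_nt, UBX)

`fix_X`: when `r : R` fixes the label `lamX`. `vox_X`: the conditions `VOx`. `lbx_card_X`: the number of the labels.
-/

set_option autoImplicit false
set_option linter.dupNamespace false

open scoped Classical

noncomputable section

namespace H70.UX

open H63.MA H35.UB H48.UX H77.UY H42.BX H62.BL H86.BX H93.BY

variable {P : Type} [Group P] {N : Subgroup P} [hN : N.Normal] {m p κ : ℕ}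
  {hn : Nk N (m + 1 + 1) = ⊥}

theorem fix_X (hp : p.Prime) (hgN : N = Subgroup.closure {x | x ∈ N ∧ x ^ p = 1})
    (hκ : ∀ x : P, x ^ p ^ κ = 1) (R : Subgroup (Hs p (LL N (m + 1) hn) (P ⧸ N))) {g : P}
    (hg : g ∈ N) (χ : Chr p N m) (r : R) {x : P} (hx : (x : P ⧸ N) = r.1.g) {k : P → ZMod p}
    (hk : ∀ u (hu : u ∈ Nk N (m + 1)), k u = r.1.k (lm u hu)) :
    r • lamX hp hgN hκ R g hg χ = lamX hp hgN hκ R g hg χ ↔
      x * g * x⁻¹ * g⁻¹ ∈ Nk N 1 ∧ Tf N m k g χ.1 x := by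
  obtain ⟨w, hw⟩ : ∃ w : Pf R, w = Pf.mk x r hx := ⟨_, rfl⟩
  have hw1 : w.1.1 = x := by rw [hw]; rfl
  have hw2 : w.1.2 = r := by rw [hw]; rfl
  have hpi : (frF hp hgN hκ : FG (p ^ (κ + 2)) (m + 1) (Pf R) R).pi w = r := hw2
  have h0 : r • lamX hp hgN hκ R g hg χ = lamX hp hgN hκ R g hg χ ↔
      w * gP g hg * w⁻¹ * (gP g hg)⁻¹ ∈ frf R 2 ∧ ∀ u ∈ frf R (m + 1),
        upc p (κ + 1) (χ.1 u.1.1) = upc p (κ + 1) (χ.1 (w⁻¹ * u * w).1.1) +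
          kaF κ r (gP g hg * u * (gP g hg)⁻¹ * u⁻¹) := by
    have h := lbxL_fix (k := frK hp hgN hκ) (g := gP g hg) (χ := fun w => upc p (κ + 1) (χ.1 w.1.1))
      (hg := gP_mem hg hg) (hadd := fun u hu v hv => by
        have h1 := χ.2.add _ (mem_frf.1 hu).1 _ (mem_frf.1 hv).1
        show upc p (κ + 1) (χ.1 (u.1.1 * v.1.1)) = _
        rw [h1, upc_add hp]) (hbot := fun u hu => by
        have h1 := χ.2.bot _ (mem_frf.1 hu).1
        show upc p (κ + 1) (χ.1 u.1.1) = 0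
        rw [h1, upc_zero hp]) w
    rw [hpi] at h
    exact h
  rw [h0]
  have e1 : w * gP g hg * w⁻¹ * (gP g hg)⁻¹ ∈ frf R 2 ↔ x * g * x⁻¹ * g⁻¹ ∈ Nk N 1 := by
    have h1 : (w * gP g hg * w⁻¹ * (gP g hg)⁻¹).1.1 = x * g * x⁻¹ * g⁻¹ := by
      rw [← hw1]
      rfl
    have h2 : (w * gP g hg * w⁻¹ * (gP g hg)⁻¹).1.2 = 1 := by
      show w.1.2 * 1 * w.1.2⁻¹ * (1 : R)⁻¹ = 1
      group
    rw [mem_frf, h1]
    exact ⟨fun h => h.1, fun h => ⟨h, h2⟩⟩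
  rw [e1]
  refine and_congr_right fun _ => ?_
  -- the value at `y`
  have key : ∀ y, y ∈ Nk N m → ∀ u : Pf R, u.1.1 = y → u.1.2 = 1 →
      (upc p (κ + 1) (χ.1 u.1.1) = upc p (κ + 1) (χ.1 (w⁻¹ * u * w).1.1) +
        kaF κ r (gP g hg * u * (gP g hg)⁻¹ * u⁻¹) ↔
      χ.1 y - χ.1 (x⁻¹ * y * x) + k (y * g * y⁻¹ * g⁻¹) = 0) := by
    intro y hy u hu1 hu2
    have h1 : (gP g hg * u * (gP g hg)⁻¹ * u⁻¹ : Pf R).1.1 = g * y * g⁻¹ * y⁻¹ := by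
      rw [← hu1]
      rfl
    have h2 : (gP g hg * u * (gP g hg)⁻¹ * u⁻¹ : Pf R).1.2 = 1 := by
      show 1 * u.1.2 * (1 : R)⁻¹ * u.1.2⁻¹ = 1
      group
    have h3 : y * g * y⁻¹ * g⁻¹ ∈ Nk N (m + 1) :=
      Subgroup.commutator_mem_commutator hy hg
    have h4 : g * y * g⁻¹ * y⁻¹ ∈ Nk N (m + 1) := by
      have h5 := inv_mem h3
      have h6 : (y * g * y⁻¹ * g⁻¹)⁻¹ = g * y * g⁻¹ * y⁻¹ := by group
      rwa [h6] at h5
    have h5 : kaF κ r (gP g hg * u * (gP g hg)⁻¹ * u⁻¹) =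
        upc p (κ + 1) (-k (y * g * y⁻¹ * g⁻¹)) := by
      have h6 : (gP g hg * u * (gP g hg)⁻¹ * u⁻¹ : Pf R).1.1 ∈ Nk N (m + 1) := by
        rw [h1]
        exact h4
      rw [kaF_of r h6 h2, hk _ h3, ← map_neg]
      congr 2
      refine ll_inj ?_
      rw [ll_lm, h1]
      have h7 : ll (-(lm (y * g * y⁻¹ * g⁻¹) h3 : LL N (m + 1) hn)) = (y * g * y⁻¹ * g⁻¹)⁻¹ := rfl
      rw [h7]
      group
    have h6 : (w⁻¹ * u * w).1.1 = x⁻¹ * y * x := by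
      rw [← hu1, ← hw1]
      rfl
    rw [h5, h6, hu1, ← upc_add hp]
    constructor
    · intro h
      rw [upc_inj hp h]
      ring
    · intro h
      congr 1
      linear_combination h
  constructor
  · intro h y hy
    have h1 : (y : P ⧸ N) = (1 : R).1.g :=
      (QuotientGroup.eq_one_iff y).2 (nk_anti N (Nat.zero_le m) hy)
    exact (key y hy (Pf.mk y 1 h1) rfl rfl).1 (h _ (mem_frf.2 ⟨hy, rfl⟩))
  · intro h u hu
    have hu' := mem_frf.1 hu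
    exact (key _ hu'.1 u rfl hu'.2).2 (h _ hu'.1)

theorem vox_X [Fintype P] [NeZero p] (hp : p.Prime)
    (hgN : N = Subgroup.closure {x | x ∈ N ∧ x ^ p = 1})
    (hκ : ∀ x : P, x ^ p ^ κ = 1) (R : Subgroup (Hs p (LL N (m + 1) hn) (P ⧸ N)))
    (gk : Fin (m + 2) → P) (hgk : ∀ k, gk k ∈ N) (χ : Fin (m + 2) → Chr p N m)
    (f : Fin (m + 2) → R) (Gk : Fin (m + 2) → P → ℂ) (hG1 : ∀ k x, ‖Gk k x‖ ≤ 1)
    (hf : ∀ k, f k • lamX hp hgN hκ R (gk k) (hgk k) (χ k) =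
      lamX hp hgN hκ R (gk k) (hgk k) (χ k)) :
    VOx (vdX hp hgN hκ R gk hgk χ f Gk) (frK hp hgN hκ).lgx where
  g k := by
    show gP (gk k) (hgk k) * ((frK hp hgN hκ).lgx.D.s (lamX hp hgN hκ R (gk k) (hgk k) (χ k)))⁻¹ ∈
      (frF hp hgN hκ : FG (p ^ (κ + 2)) (m + 1) (Pf R) R).f 2
    rw [← QuotientGroup.eq_one_iff, QuotientGroup.mk_mul, QuotientGroup.mk_inv, lgx_s]
    exact mul_inv_cancel _
  f := hf
  G k w := by
    show ‖if w.1.2 = f k then cmp p N m (Gk k) (χ k).1 w.1.1 else 0‖ ≤ 1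
    split_ifs
    · exact cmp_le (hG1 k) _ _
    · rw [norm_zero]
      exact zero_le_one
  sup k w h := by
    change (if w.1.2 = f k then cmp p N m (Gk k) (χ k).1 w.1.1 else 0) ≠ 0 at h
    by_contra h1
    exact h (if_neg (show ¬w.1.2 = f k from h1))
  eq k u hu w := by
    have hu' := mem_frf.1 hu
    have h1 : (frK hp hgN hκ).lgx.ch (lamX hp hgN hκ R (gk k) (hgk k) (χ k)) u =
      upc p (κ + 1) ((χ k).1 u.1.1) := lbxL_ch hu
    show (if (u * w).1.2 = f k then cmp p N m (Gk k) (χ k).1 (u * w).1.1 else 0) =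
      ep (p ^ (κ + 2)) ((frK hp hgN hκ).lgx.ch (lamX hp hgN hκ R (gk k) (hgk k) (χ k)) u) *
        (if w.1.2 = f k then cmp p N m (Gk k) (χ k).1 w.1.1 else 0)
    have h2 : (u * w).1.2 = w.1.2 := by
      show u.1.2 * w.1.2 = w.1.2
      rw [hu'.2, one_mul]
    have h3 : (u * w).1.1 = u.1.1 * w.1.1 := rfl
    rw [h1, h2, h3, upc_ep (κ := κ + 1) hp]
    split_ifs
    · exact cmp_eq hp (χ k).2 (Gk k) hu'.1 _
    · rw [mul_zero]

end H70.UX
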