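import Pool.Agent.H70.UY.Zav
import Pool.Agent.H70.UY.Vox
import Pool.Agent.H70.UY.Fqx

/-!
# H70-UY-SMZ: the sum of a box as a sum of sums of BLG (MP_b39724_nt, UBX)

`smz_X`: `X.smz = |U| ^ (m + 2)` times the sum over the characters `χ k` and the elements `f k` of `R` which fix the labels of the sums of BLG.
-/

set_option autoImplicit false
set_option linter.dupNamespace false

open scoped NumberField
open IsDedekindDomain
open scoped Classical

noncomputable section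

namespace H70.UX

open H38.ML H63.MA H38.BB H38.BG H57.PC H57.BRA H77.WD H77.WE H77.PC3 H35.CF H35.UB H48.UX H77.UY
  H42.BX H62.BL H86.BX H93.BY H77.INP

variable {K : Type} [Field K] [NumberField K] {Ω : Type} [Field Ω] [Algebra K Ω]
  {p κ : ℕ} {ζ : K} {D : RD0 K p ζ} {L : LDs D Ω} {A : GS D Ω} {P : Type} [Group P]
  {N : Subgroup P} [N.Normal] {m : ℕ} {hn : Nk N (m + 1 + 1) = ⊥}

theorem php_unz (hn : Nk N (m + 1 + 1) = ⊥) (hp : p.Prime) {Fr : FR L} {Q : DP K Ω} {B : H77.S3.SD D Q A} {E : Finset (Pl K)}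
    (X : Bs A P N (m + 1)) (hE : E ⊆ X.s)
    (hφ : HonE L E X.s X.φ) (hφ' : hat L A X.φ = (QuotientGroup.mk' N).comp (ev A X.g X.α))
    (hch : X.ch Fr E) {kp : Gal(Ω/K) → P → ZMod p}
    (hK : Kp L Fr A B N (m + 1) X.s E X.φ X.χ kp) : Unz L X.s (php hn hK) := by
  have hsE : E ∪ X.s = X.s := Finset.union_eq_right.2 hE
  have hev : ∀ v, ev A X.g X.α (FreeGroup.of (Sum.inl v)) = X.g v := by
    intro v
    unfold H35.UB.ev
    rw [FreeGroup.lift_apply_of]
    rfl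
  have hφ1 : ∀ v ∈ X.s, v ∉ E → X.φ (L.t v) = 1 := by
    intro v hv hvE
    rw [← hat_inl L A X.φ v, DFunLike.congr_fun hφ' _]
    show ((ev A X.g X.α (FreeGroup.of (Sum.inl v)) : P) : P ⧸ N) = 1
    rw [hev]
    exact (QuotientGroup.eq_one_iff _).2 (hch.mem v hv hvE)
  have h := (php_hon hn hK hp hφ hφ1).unz
  rwa [hsE] at h

theorem smz_X [Fintype P] [NeZero p] (hp : p.Prime)
    (hgN : N = Subgroup.closure {x | x ∈ N ∧ x ^ p = 1})
    (hκ : ∀ x : P, x ^ p ^ κ = 1) (R : Subgroup (Hs p (LL N (m + 1) hn) (P ⧸ N))) [Fintype R]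
    {k j : ℕ} {z : K} {Mg Cg C' : ℕ} {C₁ Y : ℝ} {Fr : FR L} {Q : DP K Ω}
    {B : H77.S3.SD D Q A} {Zw E : Finset (Pl K)} {l : List (Pl K)} {W : Pl K → FW A}
    {Yw : Fin A.g → FW A} (hx : Fx k j z Mg Cg C' C₁ Y Fr B Zw l W Yw) (M : ℕ)
    (hS : H77.S3.Sml p k (p ^ k) (Hs p (LL N (m + 1) hn) (P ⧸ N)))
    (X : Bs A P N (m + 1)) (hE : E ⊆ X.s) (hs : X.s ⊆ Zw)
    (hg1 : ∀ v, v ∉ X.s → X.g v = 1) (hφ : HonE L E X.s X.φ)
    (hφ' : hat L A X.φ = (QuotientGroup.mk' N).comp (ev A X.g X.α)) (hch : X.ch Fr E)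
    {kp : Gal(Ω/K) → P → ZMod p} (hK : Kp L Fr A B N (m + 1) X.s E X.φ X.χ kp)
    (hRr : (php hn hK).range = R)
    (gk : Fin (m + 2) → P) (hgk : ∀ k, gk k ∈ N) {fk : Fin (m + 2) → P ⧸ N}
    (hgx : ∀ k, ∀ x : P, (x : P ⧸ N) = fk k → x * gk k * x⁻¹ * (gk k)⁻¹ ∈ Nk N 1)
    {Gk : Fin (m + 2) → P → ℂ} (hG2 : ∀ k x, Gk k x ≠ 0 → (x : P ⧸ N) = fk k)
    (hG3 : ∀ k x, ∀ u ∈ Nk N (m + 1), Gk k (x * u) = Gk k x) :
    X.smz W Zw gk Gk = ((Finset.univ.filter fun x : P => x ∈ Nk N m).card : ℂ) ^ (m + 2) *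
      ∑ χ : Fin (m + 2) → Chr p N m, ∑ f : Fin (m + 2) → R,
        if ∀ k, f k • lamX hp hgN hκ R (gk k) (hgk k) (χ k) =
            lamX hp hgN hκ R (gk k) (hgk k) (χ k) then
          ∑ q ∈ Fintype.piFinset (fun k => BX D Zw X.s (X.lo k) (X.hi k)),
            H93.BX.Fq (wyX Fr B M Zw W Yw) (rdX Fr R X (php hn hK))
              (vdX hp hgN hκ R gk hgk χ f Gk) q else 0 := by
  have hU := php_unz hn hp X hE hφ hφ' hch hK
  have hUZ : Unz L Zw (php hn hK) := ⟨hU.1, fun v hv hz => hU.2 v hv fun h => hz (hs h)⟩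
  have hW : ∀ v ∈ Zw, hat L A (php hn hK) (W v) = php hn hK (Fr.F v) :=
    (hx.rel.2.2.1 _ hS _ hUZ).1
  have hg1' : ∀ v, v ∉ X.s → X.g v ∈ N := fun v hv => by
    rw [hg1 v hv]
    exact Subgroup.one_mem _
  -- the left side
  have h1 : X.smz W Zw gk Gk = ∑ q ∈ X.bx Zw,
      ((Finset.univ.filter fun x : P => x ∈ Nk N m).card : ℂ) ^ (m + 2) *
      ∑ χ : Fin (m + 2) → Chr p N m,
        if ∀ k, Tf N m (kp (Fr.F (q k))) (gk k) (χ k).1 (X.th gk q (W (q k))) then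
          (∏ v ∈ X.s, X.G v (X.th gk q (W v))) *
            ∏ k, cmp p N m (Gk k) (χ k).1 (X.th gk q (W (q k))) else 0 := by
    unfold Bs.smz Bs.sm
    rw [Finset.sum_comm]
    refine Finset.sum_congr rfl fun q hq => ?_
    exact zav hp hx.out hx.nd hx.ml hx.rel hn hgN hS X hE hs hg1' hφ hφ' hch hK hgk hgx hG2 hG3 hq
  rw [h1, ← Finset.mul_sum]
  congr 1
  rw [Finset.sum_comm]
  refine Finset.sum_congr rfl fun χ _ => ?_
  -- the right side
  have h2 : ∀ f : Fin (m + 2) → R,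
      (if ∀ k, f k • lamX hp hgN hκ R (gk k) (hgk k) (χ k) =
            lamX hp hgN hκ R (gk k) (hgk k) (χ k) then
          ∑ q ∈ Fintype.piFinset (fun k => BX D Zw X.s (X.lo k) (X.hi k)),
            H93.BX.Fq (wyX Fr B M Zw W Yw) (rdX Fr R X (php hn hK))
              (vdX hp hgN hκ R gk hgk χ f Gk) q else 0) =
      ∑ q ∈ X.bx Zw, if f = fun k => phR R (php hn hK) (Fr.F (q k)) then
        (if ∀ k, phR R (php hn hK) (Fr.F (q k)) • lamX hp hgN hκ R (gk k) (hgk k) (χ k) =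
            lamX hp hgN hκ R (gk k) (hgk k) (χ k) then
          (∏ v ∈ X.s, X.G v (X.th gk q (W v))) *
            ∏ k, cmp p N m (Gk k) (χ k).1 (X.th gk q (W (q k))) else 0) else 0 := by
    intro f
    rw [Finset.sum_congr rfl fun q hq => fq_X hp hgN hκ R M Yw X hs hg1 hφ' hK hRr hU hW gk hgk χ f
      Gk hq]
    have h3 : X.bx Zw = (Fintype.piFinset fun k => BX D Zw X.s (X.lo k) (X.hi k)).filter
        fun q => Function.Injective q := rfl
    rw [h3, Finset.sum_filter]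
    by_cases hf : ∀ k, f k • lamX hp hgN hκ R (gk k) (hgk k) (χ k) =
            lamX hp hgN hκ R (gk k) (hgk k) (χ k)
    · rw [if_pos hf]
      refine Finset.sum_congr rfl fun q _ => ?_
      by_cases hi : Function.Injective q
      · rw [if_pos hi]
        by_cases hq : f = fun k => phR R (php hn hK) (Fr.F (q k))
        · rw [if_pos ⟨hi, fun k => (congrFun hq k).symm⟩, if_pos hq, if_pos]
          intro k
          rw [← congrFun hq k]
          exact hf k
        · rw [if_neg hq, if_neg]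
          rintro ⟨-, h⟩
          exact hq (funext fun k => (h k).symm)
      · rw [if_neg hi, if_neg fun h => hi h.1]
    · rw [if_neg hf]
      symm
      refine Finset.sum_eq_zero fun q _ => ?_
      by_cases hi : Function.Injective q
      · rw [if_pos hi]
        by_cases hq : f = fun k => phR R (php hn hK) (Fr.F (q k))
        · rw [if_pos hq, if_neg]
          intro h
          refine hf fun k => ?_
          rw [congrFun hq k]
          exact h k
        · rw [if_neg hq]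
      · rw [if_neg hi]
  rw [Finset.sum_congr rfl fun f _ => h2 f, Finset.sum_comm]
  refine Finset.sum_congr rfl fun q hq => ?_
  rw [Finset.sum_ite_eq' Finset.univ (fun k => phR R (php hn hK) (Fr.F (q k))) _,
    if_pos (Finset.mem_univ _)]
  -- the conditions
  have hmem := bx_mem hq
  have hthφ : ∀ w, ((X.th gk q w : P) : P ⧸ N) = hat L A X.φ w := fun w =>
    (DFunLike.congr_fun (th_hat (L := L) X hg1' hφ' hgk hq) w).symm
  have hprs : Function.Surjective (prQ (p := p) (V := LL N (m + 1) hn) (Q := P ⧸ N)) := fun g =>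
    ⟨⟨0, 0, 0, g⟩, rfl⟩
  have hQ : H77.S3.Sml p k (p ^ k) (P ⧸ N) := H77.S3.sml_surj hS prQ hprs
  have hUφ : Unz L X.s X.φ := by
    have h := hφ.unz
    rwa [Finset.union_eq_right.2 hE] at h
  have hXg : ∀ v ∈ Zw, hat L A X.φ (W v) = X.φ (Fr.F v) :=
    (hx.rel.2.2.1 _ hQ X.φ ⟨hUφ.1, fun v hv hz => hUφ.2 v hv fun h => hz (hs h)⟩).1
  by_cases hT : (∏ v ∈ X.s, X.G v (X.th gk q (W v))) *
            ∏ k, cmp p N m (Gk k) (χ k).1 (X.th gk q (W (q k))) = 0
  · rw [hT, ite_self, ite_self]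
  · refine if_congr (forall_congr' fun i => ?_) rfl rfl
    have hc : cmp p N m (Gk i) (χ i).1 (X.th gk q (W (q i))) ≠ 0 := fun h => hT (by
      rw [Finset.prod_eq_zero (Finset.mem_univ i) h, mul_zero])
    have hxf := cmp_sup (hG2 i) hc
    have hr : ((X.th gk q (W (q i)) : P) : P ⧸ N) = (phR R (php hn hK) (Fr.F (q i))).1.g := by
      rw [phR_of R hRr, hthφ, hXg _ (hmem i).1]
      rfl
    rw [fix_X hp hgN hκ R (hgk i) (χ i) _ hr (k := kp (Fr.F (q i))) fun u hu => by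
      rw [phR_of R hRr]
      rfl]
    exact ⟨fun h => ⟨hgx i _ hxf, h⟩, fun h => h.2⟩

end H70.UX
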