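import Pool.Agent.H70.UY.Chr
import Pool.Agent.H70.UX.Ort
import Pool.Agent.H62.BL.Lgd

/-!
# H70-UY-ZAV: the sum over the conjugations of the labels (MP_b39724_nt, UBX)

`zav`: for fixed variable primes `q` the sum over `z k ∈ U = Nk N m` is `|U| ^ (m + 2)` times the sum of the values for the components `cmp (Gk k) (χ k)` with `Tf`.
PROOF. The labels `z g z⁻¹ = [z, g] g`, `[z, g] ∈ V = Nk N (m + 1)`: PHF (`phf`) gives the factor `ep (∑ k, kp F (x k [z, g] (x k)⁻¹))`, `x k = X.th g q (W (q k))`, `F = F_{q k}`;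
`th_dg`: `X.th (z g z⁻¹) q (W (q k)) = u x k`, `u ∈ V`, and `Gk k` is invariant under `V` (normal), so `Gk k (z⁻¹ u x z) = Gk k (z⁻¹ x z)`. With `cmp_sum`: `Gk k = ∑ χ, cmp`,
`z⁻¹ x z = (z⁻¹ · x z x⁻¹) x`, `cmp (z⁻¹ x z) = ep (-χ z + χ (x z x⁻¹)) cmp x`. The function `z ↦ kp F (x [z, g] x⁻¹) - χ z + χ (x z x⁻¹)` is additive on `U` (`[z z', g] = [z, g] [z', g]`,
`V` central in `N`), so the sum over `z` is `|U|` if it is `0`, else `0` (`ort_sum` of H70/UX/Ort). With `y = x z x⁻¹`: `x [z, g] x⁻¹ = [y, x g x⁻¹] = [y, g]`, since `x g x⁻¹ g⁻¹ ∈ Nk N 1`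
(if `cmp x ≠ 0`, `x` over `fk k`) and `[Nk N m, Nk N 1] ≤ Nk N (m + 2) = ⊥`. So the condition is `Tf N m (kp F) g χ x`.
-/

set_option autoImplicit false
set_option linter.dupNamespace false
set_option linter.unusedSectionVars false

open scoped NumberField
open IsDedekindDomain
open scoped Classical

noncomputable section

namespace H70.UX

open H38.ML H63.MA H38.BB H38.BG H57.PC H57.BRA H77.WD H77.WE H77.PC3 H35.CF H35.UB H48.UX

section one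

variable {P : Type} [Group P] {N : Subgroup P} [N.Normal] {m p : ℕ}

theorem chr_ivw {χ : P → ZMod p} (hχ : IsChr p N m χ) {z w : P} (hz : z ∈ Nk N m) (hw : w ∈ Nk N m) :
    χ (z⁻¹ * w) = χ w - χ z := by
  have h1 := hχ.add z hz (z⁻¹ * w) ((Nk N m).mul_mem ((Nk N m).inv_mem hz) hw)
  rw [mul_inv_cancel_left] at h1
  rw [h1]
  ring

/-- the commutator with an element of `N` -/
theorem cm_mem {z g : P} (hz : z ∈ Nk N m) (hg : g ∈ N) : z * g * z⁻¹ * g⁻¹ ∈ Nk N (m + 1) :=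
  Subgroup.commutator_mem_commutator hz hg

theorem cm_mul (hn : Nk N (m + 1 + 1) = ⊥) {z z' g : P} (hz : z ∈ Nk N m) (hz' : z' ∈ Nk N m)
    (hg : g ∈ N) : z * z' * g * (z * z')⁻¹ * g⁻¹ =
      (z * g * z⁻¹ * g⁻¹) * (z' * g * z'⁻¹ * g⁻¹) := by
  have h1 := nk_cm hn (cm_mem hz' hg) (nk_anti N (Nat.zero_le m) hz)
  have h2 := nk_cm hn (cm_mem hz' hg) (nk_anti N (Nat.zero_le (m + 1)) (cm_mem hz hg))
  have h3 : z * z' * g * (z * z')⁻¹ * g⁻¹ =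
      z * (z' * g * z'⁻¹ * g⁻¹) * z⁻¹ * (z * g * z⁻¹ * g⁻¹) := by group
  rw [h3, ← h1, mul_inv_cancel_right, h2]

/-- the commutator with a conjugate of `g` -/
theorem cm_cnj (hn : Nk N (m + 1 + 1) = ⊥) {y g c : P} (hy : y ∈ Nk N m) (hg : g ∈ N)
    (hc : c ∈ Nk N 1) : y * (c * g) * y⁻¹ * (c * g)⁻¹ = y * g * y⁻¹ * g⁻¹ := by
  have h1 := (H62.BL.fn_fl N).com (m + 1) 2 y hy c hc
  have h0 : m + 1 + 2 = m + 1 + 1 + 1 := by omega
  rw [h0] at h1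
  have h2 : y * c * y⁻¹ * c⁻¹ ∈ Nk N (m + 1 + 1) := h1
  rw [hn, Subgroup.mem_bot] at h2
  have h3 := nk_cm hn (cm_mem hy hg) (nk_anti N (Nat.zero_le 1) hc)
  have h4 : y * (c * g) * y⁻¹ * (c * g)⁻¹ =
      (y * c * y⁻¹ * c⁻¹) * (c * (y * g * y⁻¹ * g⁻¹)) * c⁻¹ := by group
  rw [h4, h2, one_mul, ← h3, mul_inv_cancel_right]

/-- one variable -/
theorem zav1 [Fintype P] [NeZero p] (hp : p.Prime) (hn : Nk N (m + 1 + 1) = ⊥)
    (hgN : N = Subgroup.closure {x | x ∈ N ∧ x ^ p = 1}) {kp : P → ZMod p}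
    (hkp : ∀ u ∈ Nk N (m + 1), ∀ u' ∈ Nk N (m + 1), kp (u * u') = kp u + kp u') {g : P}
    (hg : g ∈ N) {f : P ⧸ N}
    (hgx : ∀ x : P, (x : P ⧸ N) = f → x * g * x⁻¹ * g⁻¹ ∈ Nk N 1) {G : P → ℂ}
    (hG2 : ∀ x, G x ≠ 0 → (x : P ⧸ N) = f)
    (hG3 : ∀ x, ∀ u ∈ Nk N (m + 1), G (x * u) = G x) (x : P) :
    ∑ z ∈ Finset.univ.filter (fun x : P => x ∈ Nk N m),
      ep p (kp (x * (z * g * z⁻¹ * g⁻¹) * x⁻¹)) * G (z⁻¹ * x * z) =
    ((Finset.univ.filter fun x : P => x ∈ Nk N m).card : ℂ) *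
      ∑ χ : Chr p N m, if Tf N m kp g χ.1 x then cmp p N m G χ.1 x else 0 := by
  have hcj : ∀ {i : ℕ} {u : P} (x : P), u ∈ Nk N i → x * u * x⁻¹ ∈ Nk N i := fun {i} {u} x hu =>
    (nk_normal N i).conj_mem u hu x
  have h1 : ∀ z ∈ Finset.univ.filter (fun x : P => x ∈ Nk N m),
      ep p (kp (x * (z * g * z⁻¹ * g⁻¹) * x⁻¹)) * G (z⁻¹ * x * z) =
      ∑ χ : Chr p N m, ep p (kp (x * (z * g * z⁻¹ * g⁻¹) * x⁻¹) +
        (χ.1 (x * z * x⁻¹) - χ.1 z)) * cmp p N m G χ.1 x := by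
    intro z hz
    have hz' : z ∈ Nk N m := (Finset.mem_filter.1 hz).2
    rw [← cmp_sum hp hgN hG3 (z⁻¹ * x * z), Finset.mul_sum]
    refine Finset.sum_congr rfl fun χ _ => ?_
    have h2 : z⁻¹ * x * z = (z⁻¹ * (x * z * x⁻¹)) * x := by group
    rw [h2, cmp_eq hp χ.2 G ((Nk N m).mul_mem ((Nk N m).inv_mem hz') (hcj x hz')) x,
      chr_ivw χ.2 hz' (hcj x hz'), ep_add hp]
    exact (mul_assoc _ _ _).symm
  rw [Finset.sum_congr rfl h1, Finset.sum_comm, Finset.mul_sum]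
  refine Finset.sum_congr rfl fun χ _ => ?_
  rw [← Finset.sum_mul]
  by_cases hc : cmp p N m G χ.1 x = 0
  · rw [hc, mul_zero, ite_self, mul_zero]
  have hx := hgx x (cmp_sup hG2 hc)
  obtain ⟨ψ, hψ⟩ : ∃ ψ : P → ZMod p, ψ = fun z => kp (x * (z * g * z⁻¹ * g⁻¹) * x⁻¹) +
    (χ.1 (x * z * x⁻¹) - χ.1 z) := ⟨_, rfl⟩
  have hadd : ∀ a b : Nk N m, ψ ((a * b : Nk N m) : P) = ψ a + ψ b := by
    intro a b
    rw [hψ]
    beta_reduce
    rw [Subgroup.coe_mul, cm_mul hn a.2 b.2 hg, χ.2.add _ a.2 _ b.2]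
    have h3 : x * ((a * g * (a : P)⁻¹ * g⁻¹) * (b * g * (b : P)⁻¹ * g⁻¹)) * x⁻¹ =
        (x * (a * g * (a : P)⁻¹ * g⁻¹) * x⁻¹) * (x * (b * g * (b : P)⁻¹ * g⁻¹) * x⁻¹) := by group
    have h4 : x * ((a : P) * b) * x⁻¹ = (x * a * x⁻¹) * (x * b * x⁻¹) := by group
    rw [h3, h4, hkp _ (hcj x (cm_mem a.2 hg)) _ (hcj x (cm_mem b.2 hg)),
      χ.2.add _ (hcj x a.2) _ (hcj x b.2)]
    ring
  have h5 : ∑ z ∈ Finset.univ.filter (fun x : P => x ∈ Nk N m),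
      ep p (kp (x * (z * g * z⁻¹ * g⁻¹) * x⁻¹) + (χ.1 (x * z * x⁻¹) - χ.1 z)) =
      ∑ z : Nk N m, ep p (ψ z) := by
    rw [hψ]
    refine (Finset.sum_subtype (p := fun x : P => x ∈ Nk N m) _ (fun z => ?_) _)
    rw [Finset.mem_filter]
    exact ⟨fun h => h.2, fun h => ⟨Finset.mem_univ _, h⟩⟩
  have h6 : (Finset.univ.filter fun x : P => x ∈ Nk N m).card = Fintype.card (Nk N m) := by
    rw [Fintype.card_subtype]
  have h7 : (∀ z : Nk N m, ψ z = 0) ↔ Tf N m kp g χ.1 x := by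
    have h8 : ∀ z ∈ Nk N m, ψ z = χ.1 (x * z * x⁻¹) - χ.1 (x⁻¹ * (x * z * x⁻¹) * x) +
        kp ((x * z * x⁻¹) * g * (x * z * x⁻¹)⁻¹ * g⁻¹) := by
      intro z hz
      rw [hψ]
      beta_reduce
      have h9 : x * (z * g * z⁻¹ * g⁻¹) * x⁻¹ =
          (x * z * x⁻¹) * ((x * g * x⁻¹ * g⁻¹) * g) * (x * z * x⁻¹)⁻¹ *
            ((x * g * x⁻¹ * g⁻¹) * g)⁻¹ := by group
      have h10 : x⁻¹ * (x * z * x⁻¹) * x = z := by group
      rw [h9, cm_cnj hn (hcj x hz) hg hx, h10]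
      ring
    constructor
    · intro h y hy
      have hy' : x⁻¹ * y * x ∈ Nk N m := by simpa using hcj x⁻¹ hy
      have h9 := h ⟨_, hy'⟩
      have h10 : x * (x⁻¹ * y * x) * x⁻¹ = y := by group
      rw [h8 _ hy', h10] at h9
      exact h9
    · intro h z
      rw [h8 _ z.2]
      exact h _ (hcj x z.2)
  rw [h5, ort_sum hp (fun z : Nk N m => ψ z) hadd, h6]
  by_cases h9 : Tf N m kp g χ.1 x
  · rw [if_pos h9, if_pos (h7.2 h9)]
  · rw [if_neg h9, if_neg fun h => h9 (h7.1 h), zero_mul, mul_zero]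

end one

variable {K : Type} [Field K] [NumberField K] {Ω : Type} [Field Ω] [Algebra K Ω]
  {p : ℕ} {ζ : K} {D : RD0 K p ζ} {L : LDs D Ω} {A : GS D Ω} {P : Type} [Group P]
  {N : Subgroup P} [N.Normal] {m : ℕ}

theorem zav (hp : p.Prime) [NeZero p] {k M : ℕ} {Q' : DP K Ω} {Fr : FR L} {B : H77.S3.SD D Q' A}
    {Zw : Finset (Pl K)} (hZ : ∀ v ∈ Zw, v ∉ D.S0) {l : List (Pl K)} (hl : l.Nodup)
    (hlZ : ∀ v, v ∈ l ↔ v ∈ Zw ∨ v ∈ D.S0) {W : Pl K → FW A} {Yw : Fin A.g → FW A}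
    (hR : H77.S3.Rel k M L Fr A B Zw l W Yw) [Fintype P] (hn : Nk N (m + 1 + 1) = ⊥)
    (hgN : N = Subgroup.closure {x | x ∈ N ∧ x ^ p = 1})
    (hS : H77.S3.Sml p k M (Hs p (LL N (m + 1) hn) (P ⧸ N))) {E : Finset (Pl K)}
    (X : Bs A P N (m + 1)) (hE : E ⊆ X.s) (hs : X.s ⊆ Zw) (hg1 : ∀ v, v ∉ X.s → X.g v ∈ N)
    (hφ : HonE L E X.s X.φ) (hφ' : hat L A X.φ = (QuotientGroup.mk' N).comp (ev A X.g X.α))
    (hch : X.ch Fr E) {kp : Gal(Ω/K) → P → ZMod p}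
    (hK : Kp L Fr A B N (m + 1) X.s E X.φ X.χ kp)
    {g : Fin (m + 2) → P} (hg : ∀ k, g k ∈ N) {fk : Fin (m + 2) → P ⧸ N}
    (hgx : ∀ k, ∀ x : P, (x : P ⧸ N) = fk k → x * g k * x⁻¹ * (g k)⁻¹ ∈ Nk N 1)
    {Gk : Fin (m + 2) → P → ℂ} (hG2 : ∀ k x, Gk k x ≠ 0 → (x : P ⧸ N) = fk k)
    (hG3 : ∀ k x, ∀ u ∈ Nk N (m + 1), Gk k (x * u) = Gk k x)
    {q : Fin (m + 2) → Pl K} (hq : q ∈ X.bx Zw) :
    ∑ z ∈ Fintype.piFinset (fun _ : Fin (m + 2) => Finset.univ.filter fun x : P => x ∈ Nk N m),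
      (∏ v ∈ X.s, X.G v (X.th (fun k => z k * g k * (z k)⁻¹) q (W v))) *
        ∏ k, Gk k ((z k)⁻¹ * X.th (fun k => z k * g k * (z k)⁻¹) q (W (q k)) * z k) =
    ((Finset.univ.filter fun x : P => x ∈ Nk N m).card : ℂ) ^ (m + 2) *
      ∑ χ : Fin (m + 2) → Chr p N m,
        if ∀ k, Tf N m (kp (Fr.F (q k))) (g k) (χ k).1 (X.th g q (W (q k))) then
          (∏ v ∈ X.s, X.G v (X.th g q (W v))) *
            ∏ k, cmp p N m (Gk k) (χ k).1 (X.th g q (W (q k))) else 0 := by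
  have hU : ∀ z : Fin (m + 2) → P, z ∈ Fintype.piFinset (fun _ : Fin (m + 2) =>
      Finset.univ.filter fun x : P => x ∈ Nk N m) → ∀ k, z k ∈ Nk N m := fun z hz k =>
    (Finset.mem_filter.1 (Fintype.mem_piFinset.1 hz k)).2
  obtain ⟨x, hx⟩ : ∃ x : Fin (m + 2) → P, x = fun k => X.th g q (W (q k)) := ⟨_, rfl⟩
  have hx' : ∀ k, X.th g q (W (q k)) = x k := fun k => by rw [hx]
  have h1 : ∀ z ∈ Fintype.piFinset (fun _ : Fin (m + 2) =>
      Finset.univ.filter fun x : P => x ∈ Nk N m),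
      (∏ v ∈ X.s, X.G v (X.th (fun k => z k * g k * (z k)⁻¹) q (W v))) *
        ∏ k, Gk k ((z k)⁻¹ * X.th (fun k => z k * g k * (z k)⁻¹) q (W (q k)) * z k) =
      (∏ v ∈ X.s, X.G v (X.th g q (W v))) *
        ∏ k, (ep p (kp (Fr.F (q k)) (x k * (z k * g k * (z k)⁻¹ * (g k)⁻¹) * (x k)⁻¹)) *
          Gk k ((z k)⁻¹ * x k * z k)) := by
    intro z hz
    have hd : ∀ k, z k * g k * (z k)⁻¹ * (g k)⁻¹ ∈ Nk N (m + 1) := fun k =>
      cm_mem (hU z hz k) (hg k)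
    have h2 : (fun k => z k * g k * (z k)⁻¹) =
        fun k => (z k * g k * (z k)⁻¹ * (g k)⁻¹) * g k := by
      funext k
      rw [inv_mul_cancel_right]
    have h3 := phf hp hZ hl hlZ hR hn hS X hE hs hg1 hφ hφ' hch hK hg hd hq
    have h4 : ∀ k, Gk k ((z k)⁻¹ * X.th (fun k => (z k * g k * (z k)⁻¹ * (g k)⁻¹) * g k) q
        (W (q k)) * z k) = Gk k ((z k)⁻¹ * x k * z k) := by
      intro k
      obtain ⟨u, hu, hu'⟩ := th_dg X hd q (W (q k))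
      rw [hu', hx' k]
      have h5 : (z k)⁻¹ * (u * x k) * z k = ((z k)⁻¹ * x k * z k) *
          (((x k)⁻¹ * z k)⁻¹ * ((x k)⁻¹ * z k) * ((z k)⁻¹ * (x k)⁻¹ * u * x k * z k)) := by group
      have h6 : (z k)⁻¹ * (x k)⁻¹ * u * x k * z k ∈ Nk N (m + 1) := by
        have h7 := (nk_normal N (m + 1)).conj_mem u hu ((z k)⁻¹ * (x k)⁻¹)
        have h8 : (z k)⁻¹ * (x k)⁻¹ * u * ((z k)⁻¹ * (x k)⁻¹)⁻¹ =
            (z k)⁻¹ * (x k)⁻¹ * u * x k * z k := by group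
        rwa [h8] at h7
      rw [h5, inv_mul_cancel, one_mul, hG3 k _ _ h6]
    have h9 : (∑ k, kp (Fr.F (q k)) (X.th g q (W (q k)) * (z k * g k * (z k)⁻¹ * (g k)⁻¹) *
        (X.th g q (W (q k)))⁻¹)) =
        ∑ k, kp (Fr.F (q k)) (x k * (z k * g k * (z k)⁻¹ * (g k)⁻¹) * (x k)⁻¹) :=
      Finset.sum_congr rfl fun k _ => by rw [hx' k]
    have h10 : ∀ a : Fin (m + 2) → ZMod p, ep p (∑ k, a k) = ∏ k, ep p (a k) := by
      intro a
      have h11 : ∀ s : Finset (Fin (m + 2)), ep p (∑ k ∈ s, a k) = ∏ k ∈ s, ep p (a k) := by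
        intro s
        induction s using Finset.induction_on with
        | empty => rw [Finset.sum_empty, Finset.prod_empty, ep_zero]
        | insert b s hb ih => rw [Finset.sum_insert hb, Finset.prod_insert hb, ep_add hp, ih]
      exact h11 Finset.univ
    rw [h2, h3, h9, h10, Finset.prod_congr rfl fun k _ => h4 k, Finset.prod_mul_distrib]
    ring
  rw [Finset.sum_congr rfl h1, ← Finset.mul_sum]
  have h2 := (Finset.prod_univ_sum (fun _ : Fin (m + 2) => Finset.univ.filter fun x : P => x ∈ Nk N m)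
    (fun k z => ep p (kp (Fr.F (q k)) (x k * (z * g k * z⁻¹ * (g k)⁻¹) * (x k)⁻¹)) *
      Gk k (z⁻¹ * x k * z))).symm
  rw [h2, Finset.prod_congr rfl fun k _ => zav1 hp hn hgN (fun u hu u' hu' =>
    hK.add (Fr.F (q k)) u hu u' hu') (hg k) (hgx k) (hG2 k) (hG3 k) (x k),
    Finset.prod_mul_distrib, Finset.prod_const, Finset.card_univ, Fintype.card_fin,
    Finset.prod_univ_sum, Fintype.piFinset_univ, mul_left_comm, Finset.mul_sum]
  congr 1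
  refine Finset.sum_congr rfl fun χ _ => ?_
  simp only [hx']
  by_cases h3 : ∀ k, Tf N m (kp (Fr.F (q k))) (g k) (χ k).1 (x k)
  · rw [if_pos h3]
    congr 1
    exact Finset.prod_congr rfl fun k _ => if_pos (h3 k)
  · rw [if_neg h3]
    push Not at h3
    obtain ⟨k, hk⟩ := h3
    rw [Finset.prod_eq_zero (Finset.mem_univ k) (if_neg hk), mul_zero]

end H70.UX
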